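import Mathlib

set_option autoImplicit false

namespace Pool.R342.Sig

open Finset Filter Topology

/-- the divisor function `σ_{-r}(n) = ∑_{d ∣ n} d^{-r}` -/
noncomputable def sg (r : ℝ) (n : ℕ) : ℝ := ∑ d ∈ n.divisors, (d : ℝ) ^ (-r)

/-- `x_p = p^{-r}` -/
noncomputable def fx (r : ℝ) (p : ℕ) : ℝ := (p : ℝ) ^ (-r)

/-- `1 + x + ... + x^a` -/
noncomputable def fa (x : ℝ) (a : ℕ) : ℝ := ∑ i ∈ range (a + 1), x ^ i

noncomputable def af (r : ℝ) : ArithmeticFunction ℝ :=
  ⟨fun n => if n = 0 then 0 else (n : ℝ) ^ (-r), by simp⟩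

lemma af_mult (r : ℝ) : (af r).IsMultiplicative := by
  constructor
  · simp [af]
  · intro m n _
    simp only [af, ArithmeticFunction.coe_mk]
    by_cases hm : m = 0
    · simp [hm]
    by_cases hn : n = 0
    · simp [hn]
    simp only [hm, hn, mul_eq_zero, or_self, if_false]
    push_cast
    rw [Real.mul_rpow (by positivity) (by positivity)]

lemma sg_eq (r : ℝ) (n : ℕ) : sg r n = (af r * (ArithmeticFunction.zeta : ArithmeticFunction ℝ)) n := by
  rw [ArithmeticFunction.coe_mul_zeta_apply]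
  unfold sg
  apply Finset.sum_congr rfl
  intro d hd
  have : d ≠ 0 := (Nat.pos_of_mem_divisors hd).ne'
  simp [af, this]

lemma sg_mul (r : ℝ) {m n : ℕ} (h : Nat.Coprime m n) : sg r (m * n) = sg r m * sg r n := by
  rw [sg_eq, sg_eq, sg_eq]
  exact ((af_mult r).mul ArithmeticFunction.isMultiplicative_zeta.natCast).map_mul_of_coprime h

lemma sg_prime_pow (r : ℝ) {p : ℕ} (hp : p.Prime) (a : ℕ) : sg r (p ^ a) = fa (fx r p) a := by
  unfold sg fa fx
  rw [Nat.sum_divisors_prime_pow hp]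
  apply Finset.sum_congr rfl
  intro i _
  push_cast
  rw [← Real.rpow_natCast, ← Real.rpow_mul (by positivity), ← Real.rpow_natCast,
    ← Real.rpow_mul (by positivity)]
  ring_nf

lemma sg_one (r : ℝ) : sg r 1 = 1 := by simp [sg]

lemma fx_pos (r : ℝ) {p : ℕ} (hp : 0 < p) : 0 < fx r p := by
  unfold fx; positivity

lemma fx_lt_one {r : ℝ} (hr : 0 < r) {p : ℕ} (hp : 1 < p) : fx r p < 1 := by
  unfold fx
  apply Real.rpow_lt_one_of_one_lt_of_neg (by exact_mod_cast hp) (by linarith)

lemma fa_zero (x : ℝ) : fa x 0 = 1 := by simp [fa]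

lemma fa_succ (x : ℝ) (a : ℕ) : fa x (a + 1) = fa x a + x ^ (a + 1) := by
  unfold fa; rw [Finset.sum_range_succ]

lemma fa_succ' (x : ℝ) (a : ℕ) : fa x (a + 1) = 1 + x * fa x a := by
  induction a with
  | zero => simp [fa, Finset.sum_range_succ]
  | succ n ih =>
    rw [fa_succ, ih]
    have h := fa_succ x n
    rw [ih] at h
    linear_combination (-x) * h

lemma one_le_fa {x : ℝ} (hx : 0 ≤ x) (a : ℕ) : 1 ≤ fa x a := by
  induction a with
  | zero => simp [fa_zero]
  | succ n ih => rw [fa_succ]; have := pow_nonneg hx (n+1); linarith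

lemma fa_mono {x : ℝ} (hx : 0 ≤ x) : Monotone (fa x) := by
  apply monotone_nat_of_le_succ
  intro n; rw [fa_succ]; have := pow_nonneg hx (n+1); linarith

lemma fa_eq {x : ℝ} (hx1 : x < 1) (a : ℕ) : fa x a = (1 - x)⁻¹ * (1 - x ^ (a + 1)) := by
  have h : fa x a * (1 - x) = 1 - x ^ (a + 1) := by
    unfold fa; have := geom_sum_mul_neg x (a+1); linarith
  rw [← h]; field_simp [show (1 - x) ≠ 0 by linarith]

lemma inf_pos {x : ℝ} (hx1 : x < 1) : 0 < (1 - x)⁻¹ := by
  apply inv_pos.mpr; linarith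

lemma fa_le_inf {x : ℝ} (hx : 0 ≤ x) (hx1 : x < 1) (a : ℕ) : fa x a ≤ (1 - x)⁻¹ := by
  rw [fa_eq hx1]
  have h1 := inf_pos hx1
  have h2 := pow_nonneg hx (a+1)
  nlinarith

lemma fa_tendsto {x : ℝ} (hx : 0 ≤ x) (hx1 : x < 1) :
    Tendsto (fa x) atTop (𝓝 (1 - x)⁻¹) := by
  have h1 : Tendsto (fun a : ℕ => x ^ (a + 1)) atTop (𝓝 0) :=
    (tendsto_pow_atTop_nhds_zero_of_lt_one hx hx1).comp (tendsto_add_atTop_nat 1)
  have h2 : Tendsto (fun a : ℕ => (1 - x)⁻¹ * (1 - x ^ (a + 1))) atTop (𝓝 ((1 - x)⁻¹ * (1 - 0))) :=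
    (h1.const_sub 1).const_mul _
  rw [sub_zero, mul_one] at h2
  refine h2.congr (fun a => (fa_eq hx1 a).symm)

/-- the ratio `f_{a+1}/f_a` is nonincreasing -/
lemma fa_ratio {x : ℝ} (hx : 0 ≤ x) (hx1 : x < 1) {A a : ℕ} (h : A ≤ a) :
    fa x (a + 1) * fa x A ≤ fa x (A + 1) * fa x a := by
  rw [fa_succ x a, fa_succ x A, add_mul, add_mul]
  have h1 : x ^ (a + 1) ≤ x ^ (A + 1) := pow_le_pow_of_le_one hx hx1.le (by omega)
  have h2 : fa x A ≤ fa x a := fa_mono hx h
  have h3 : x ^ (a + 1) * fa x A ≤ x ^ (A + 1) * fa x a :=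
    mul_le_mul h1 h2 (by have := one_le_fa hx A; linarith) (by positivity)
  nlinarith

/-- values of `σ_{-r}` at positive integers all of whose prime factors are `≥ N` -/
def SS (r : ℝ) (N : ℕ) : Set ℝ :=
  {y | ∃ n : ℕ, 0 < n ∧ (∀ p : ℕ, p.Prime → p ∣ n → N ≤ p) ∧ y = sg r n}

lemma SS_two (r : ℝ) : SS r 2 = sg r '' {n | 0 < n} := by
  ext y
  constructor
  · rintro ⟨n, hn, -, rfl⟩; exact ⟨n, hn, rfl⟩
  · rintro ⟨n, hn, rfl⟩; exact ⟨n, hn, fun p hp _ => hp.two_le, rfl⟩

lemma SS_notprime (r : ℝ) {N : ℕ} (h : ¬ N.Prime) : SS r N = SS r (N + 1) := by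
  ext y
  constructor
  · rintro ⟨n, hn, h1, rfl⟩
    refine ⟨n, hn, fun p hp hd => ?_, rfl⟩
    have := h1 p hp hd
    rcases Nat.lt_or_ge N p with h2 | h2
    · omega
    · have : N = p := by omega
      subst this; exact absurd hp h
  · rintro ⟨n, hn, h1, rfl⟩
    exact ⟨n, hn, fun p hp hd => by have := h1 p hp hd; omega, rfl⟩

lemma SS_prime (r : ℝ) {p : ℕ} (hp : p.Prime) :
    SS r p = {y | ∃ a : ℕ, ∃ z ∈ SS r (p + 1), y = fa (fx r p) a * z} := by
  ext y
  constructor
  · rintro ⟨n, hn, h1, rfl⟩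
    refine ⟨n.factorization p, sg r (ordCompl[p] n), ⟨ordCompl[p] n, Nat.ordCompl_pos p hn.ne', ?_, rfl⟩, ?_⟩
    · intro q hq hqd
      have h2 : q ∣ n := hqd.trans (Nat.ordCompl_dvd n p)
      have h3 := h1 q hq h2
      rcases Nat.lt_or_ge p q with h4 | h4
      · omega
      · have : q = p := by omega
        subst this
        exact absurd hqd (Nat.not_dvd_ordCompl hp hn.ne')
    · rw [← sg_prime_pow r hp, ← sg_mul r (Nat.Coprime.pow_left _ (Nat.coprime_ordCompl hp hn.ne')),
        Nat.ordProj_mul_ordCompl_eq_self]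
  · rintro ⟨a, z, ⟨m, hm, h1, rfl⟩, rfl⟩
    refine ⟨p ^ a * m, Nat.mul_pos (pow_pos hp.pos a) hm, ?_, ?_⟩
    · intro q hq hqd
      rcases (hq.dvd_mul).mp hqd with h2 | h2
      · have := hq.dvd_of_dvd_pow h2
        exact ((Nat.prime_dvd_prime_iff_eq hq hp).mp this).ge
      · have := h1 q hq h2; omega
    · have hc : Nat.Coprime (p ^ a) m := by
        apply Nat.Coprime.pow_left
        rw [hp.coprime_iff_not_dvd]
        intro h2
        have := h1 p hp h2; omega
      rw [sg_mul r hc, sg_prime_pow r hp]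

/-! ### finite unions of closed intervals -/

/-- union of the closed intervals listed in `I` -/
def U (I : List (ℝ × ℝ)) : Set ℝ := {y | ∃ i ∈ I, i.1 ≤ y ∧ y ≤ i.2}

lemma U_cons (i : ℝ × ℝ) (I : List (ℝ × ℝ)) : U (i :: I) = Set.Icc i.1 i.2 ∪ U I := by
  ext y; simp [U]

lemma U_append (I J : List (ℝ × ℝ)) : U (I ++ J) = U I ∪ U J := by
  ext y
  simp only [U, List.mem_append, Set.mem_ofPred_eq, Set.mem_union]
  constructor
  · rintro ⟨i, h | h, h2⟩
    · exact Or.inl ⟨i, h, h2⟩
    · exact Or.inr ⟨i, h, h2⟩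
  · rintro (⟨i, h, h2⟩ | ⟨i, h, h2⟩)
    · exact ⟨i, Or.inl h, h2⟩
    · exact ⟨i, Or.inr h, h2⟩

lemma isClosed_U (I : List (ℝ × ℝ)) : IsClosed (U I) := by
  induction I with
  | nil => simp [U]
  | cons i I ih => rw [U_cons]; exact isClosed_Icc.union ih

/-- effect of one prime on a list of intervals -/
noncomputable def stepI (x : ℝ) (A : ℕ) (I : List (ℝ × ℝ)) : List (ℝ × ℝ) :=
  (List.range A).flatMap (fun a => I.map (fun i => (fa x a * i.1, fa x a * i.2))) ++
    I.map (fun i => (fa x A * i.1, (1 - x)⁻¹ * i.2))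

lemma closure_step {x : ℝ} (hx : 0 ≤ x) (hx1 : x < 1) (A : ℕ) (I : List (ℝ × ℝ)) (Z : Set ℝ)
    (hZ : closure Z = U I)
    (hI : ∀ i ∈ I, 0 < i.1 ∧ i.1 ≤ i.2 ∧ fa x (A + 1) * i.1 ≤ fa x A * i.2) :
    closure {y | ∃ a : ℕ, ∃ z ∈ Z, y = fa x a * z} = U (stepI x A I) := by
  apply Set.Subset.antisymm
  · apply closure_minimal _ (isClosed_U _)
    rintro y ⟨a, z, hz, rfl⟩
    have hz' : z ∈ U I := hZ ▸ subset_closure hz
    obtain ⟨i, hi, h1, h2⟩ := hz'
    have hf := one_le_fa hx a
    obtain ⟨hi1, hi2, hi3⟩ := hI i hi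
    by_cases ha : a < A
    · refine ⟨(fa x a * i.1, fa x a * i.2), ?_, ?_, ?_⟩
      · unfold stepI
        apply List.mem_append_left
        rw [List.mem_flatMap]
        exact ⟨a, List.mem_range.mpr ha, List.mem_map.mpr ⟨i, hi, rfl⟩⟩
      · exact mul_le_mul_of_nonneg_left h1 (by linarith)
      · exact mul_le_mul_of_nonneg_left h2 (by linarith)
    · push Not at ha
      refine ⟨(fa x A * i.1, (1 - x)⁻¹ * i.2), ?_, ?_, ?_⟩
      · unfold stepI
        apply List.mem_append_right
        exact List.mem_map.mpr ⟨i, hi, rfl⟩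
      · have h3 := fa_mono hx ha
        have h4 := one_le_fa hx A
        exact mul_le_mul h3 h1 hi1.le (by linarith)
      · have h3 := fa_le_inf hx hx1 a
        exact mul_le_mul h3 h2 (by linarith) (inf_pos hx1).le
  · -- `f_a * Icc` is inside the closure
    have key : ∀ a : ℕ, ∀ i ∈ I, ∀ w, i.1 ≤ w → w ≤ i.2 →
        fa x a * w ∈ closure {y | ∃ a : ℕ, ∃ z ∈ Z, y = fa x a * z} := by
      intro a i hi w h1 h2
      have hw : w ∈ closure Z := by rw [hZ]; exact ⟨i, hi, h1, h2⟩
      have hc : Continuous (fun t : ℝ => fa x a * t) := continuous_const.mul continuous_id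
      have := image_closure_subset_closure_image hc (s := Z)
      have h3 := this ⟨w, hw, rfl⟩
      refine closure_mono ?_ h3
      rintro _ ⟨z, hz, rfl⟩
      exact ⟨a, z, hz, rfl⟩
    rintro y ⟨j, hj, h1, h2⟩
    unfold stepI at hj
    rcases List.mem_append.mp hj with hj | hj
    · rw [List.mem_flatMap] at hj
      obtain ⟨a, ha, hj⟩ := hj
      obtain ⟨i, hi, rfl⟩ := List.mem_map.mp hj
      have hf := one_le_fa hx a
      have hf0 : 0 < fa x a := by linarith
      have hy : y = fa x a * (y / fa x a) := by field_simp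
      rw [hy]
      apply key a i hi
      · rw [le_div_iff₀ hf0]; linarith
      · rw [div_le_iff₀ hf0]; linarith
    · obtain ⟨i, hi, rfl⟩ := List.mem_map.mp hj
      simp only at h1 h2
      obtain ⟨hi1, hi2, hi3⟩ := hI i hi
      have hi2' : 0 < i.2 := lt_of_lt_of_le hi1 hi2
      rcases lt_or_eq_of_le h2 with h2 | h2
      · -- find the least `a ≥ A` with `y ≤ f_a * i.2`
        have hex : ∃ k : ℕ, y ≤ fa x (A + k) * i.2 := by
          have ht : Tendsto (fun k : ℕ => fa x (A + k) * i.2) atTop (𝓝 ((1 - x)⁻¹ * i.2)) := by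
            apply Tendsto.mul_const
            have := (fa_tendsto hx hx1).comp (tendsto_add_atTop_nat A)
            refine this.congr (fun k => ?_)
            simp [Function.comp, add_comm]
          obtain ⟨k, hk⟩ := (ht.eventually (lt_mem_nhds h2)).exists
          exact ⟨k, hk.le⟩
        classical
        obtain ⟨hk1, hk2⟩ := And.intro (Nat.find_spec hex) (fun m hm => Nat.find_min hex (m := m) hm)
        set k := Nat.find hex with hkdef
        have hf := one_le_fa hx (A + k)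
        have hf0 : 0 < fa x (A + k) := by linarith
        have hy : y = fa x (A + k) * (y / fa x (A + k)) := by field_simp
        rw [hy]
        apply key (A + k) i hi
        · rw [le_div_iff₀ hf0]
          rcases Nat.eq_zero_or_pos k with h0 | h0
          · rw [h0, add_zero]; linarith
          · have h3 := hk2 (k - 1) (by omega)
            push Not at h3
            have h4 := fa_ratio hx hx1 (show A ≤ A + (k - 1) by omega)
            have h5 : A + (k - 1) + 1 = A + k := by omega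
            rw [h5] at h4
            have hA := one_le_fa hx A
            have hB := one_le_fa hx (A + (k-1))
            -- f_{A+k} i.1 ≤ f_{A+k-1} i.2
            have h6 : fa x (A + k) * i.1 ≤ fa x (A + (k - 1)) * i.2 := by
              have h7 : fa x A * (fa x (A + k) * i.1) ≤ fa x A * (fa x (A + (k - 1)) * i.2) := by
                calc fa x A * (fa x (A + k) * i.1) = (fa x (A + k) * fa x A) * i.1 := by ring
                  _ ≤ (fa x (A + 1) * fa x (A + (k - 1))) * i.1 :=
                      mul_le_mul_of_nonneg_right h4 hi1.le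
                  _ = fa x (A + (k-1)) * (fa x (A + 1) * i.1) := by ring
                  _ ≤ fa x (A + (k-1)) * (fa x A * i.2) :=
                      mul_le_mul_of_nonneg_left hi3 (by linarith)
                  _ = _ := by ring
              exact le_of_mul_le_mul_left h7 (by linarith)
            linarith
        · rw [div_le_iff₀ hf0]; linarith
      · rw [h2]
        have ht : Tendsto (fun k : ℕ => fa x k * i.2) atTop (𝓝 ((1 - x)⁻¹ * i.2)) :=
          (fa_tendsto hx hx1).mul_const _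
        refine isClosed_closure.mem_of_tendsto ht (Eventually.of_forall (fun k => ?_))
        exact key k i hi i.2 hi2 le_rfl

end Pool.R342.Sig
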