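import Pool.Agent.R342.Sig.Num

set_option autoImplicit false

namespace Pool.R342.Sig

open Finset Filter Topology

/-- number of connected components of a set of reals -/
noncomputable def nC (X : Set ℝ) : ℕ∞ := ENat.card (ConnectedComponents X)

lemma same_comp {X : Set ℝ} {a b : ℝ} (h : Set.Icc a b ⊆ X) {x y : X} (hx : (x : ℝ) ∈ Set.Icc a b)
    (hy : (y : ℝ) ∈ Set.Icc a b) : (x : ConnectedComponents X) = (y : ConnectedComponents X) := by
  have hpre : IsPreconnected ((Subtype.val : X → ℝ) ⁻¹' Set.Icc a b) := by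
    rw [← Topology.IsInducing.subtypeVal.isPreconnected_image, Subtype.image_preimage_coe,
      Set.inter_eq_self_of_subset_right h]
    exact isPreconnected_Icc
  rw [ConnectedComponents.coe_eq_coe]
  exact (connectedComponent_eq ((hpre.subset_connectedComponent hx) hy))

lemma diff_comp {X : Set ℝ} {x y : X} {c : ℝ} (hc : c ∉ X) (h1 : (x : ℝ) ≤ c) (h2 : c ≤ (y : ℝ)) :
    (x : ConnectedComponents X) ≠ (y : ConnectedComponents X) := by
  intro h
  rw [ConnectedComponents.coe_eq_coe] at h
  have hpre : IsPreconnected ((Subtype.val : X → ℝ) '' connectedComponent x) :=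
    isPreconnected_connectedComponent.image _ continuous_subtype_val.continuousOn
  have hx : (x : ℝ) ∈ (Subtype.val : X → ℝ) '' connectedComponent x := ⟨x, mem_connectedComponent, rfl⟩
  have hy : (y : ℝ) ∈ (Subtype.val : X → ℝ) '' connectedComponent x :=
    ⟨y, h ▸ mem_connectedComponent, rfl⟩
  obtain ⟨z, _, hz⟩ := hpre.Icc_subset hx hy ⟨h1, h2⟩
  exact hc (hz ▸ z.2)

lemma nC_le (I : List (ℝ × ℝ)) (hI : ∀ i ∈ I, i.1 ≤ i.2) : nC (U I) ≤ I.length := by
  unfold nC
  have hmem : ∀ k : Fin I.length, (I.get k).1 ∈ U I := fun k =>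
    ⟨I.get k, List.get_mem _ _, le_rfl, hI _ (List.get_mem _ _)⟩
  let f : Fin I.length → ConnectedComponents (U I) := fun k => ((⟨(I.get k).1, hmem k⟩ : U I) : ConnectedComponents (U I))
  have hf : Function.Surjective f := by
    intro c
    obtain ⟨⟨y, hy⟩, rfl⟩ := ConnectedComponents.surjective_coe c
    obtain ⟨i, hi, h1, h2⟩ := hy
    obtain ⟨k, hk⟩ := List.get_of_mem hi
    refine ⟨k, ?_⟩
    have hsub : Set.Icc (I.get k).1 (I.get k).2 ⊆ U I := fun z hz => ⟨I.get k, List.get_mem _ _, hz.1, hz.2⟩
    refine same_comp hsub ⟨le_rfl, hI _ (List.get_mem _ _)⟩ ?_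
    rw [hk]; exact ⟨h1, h2⟩
  have := ENat.card_le_card_of_injective (Function.injective_surjInv hf)
  simpa using this

lemma Rep_nC_le {L : List Blk} {X : Set ℝ} (h : Rep L X) : nC X ≤ L.length := by
  obtain ⟨I, hI, rfl⟩ := h
  rw [hI.length_eq]
  apply nC_le
  intro i hi
  clear * - hI hi
  induction hI with
  | nil => simp at hi
  | @cons b j L I hb h ih =>
    rcases List.mem_cons.mp hi with rfl | hi
    · exact hb.2.2.2
    · exact ih hi

/-- the blocks are surely separated (by at least one grid point) -/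
def sepB (b c : Blk) : Bool := decide (b.bh + 1 < c.al) || decide (c.bh + 1 < b.al)

def pwB : List Blk → Bool
  | [] => true
  | b :: L => L.all (sepB b) && pwB L

lemma pwB_spec (L : List Blk) (h : pwB L = true) : L.Pairwise (fun b c => sepB b c = true) := by
  induction L with
  | nil => exact List.Pairwise.nil
  | cons b L ih =>
    simp only [pwB, Bool.and_eq_true, List.all_eq_true] at h
    exact List.Pairwise.cons h.1 (ih h.2)

lemma Rep_le_nC {L : List Blk} {X : Set ℝ} (h : Rep L X) (hp : pwB L = true) :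
    (L.length : ℕ∞) ≤ nC X := by
  obtain ⟨I, hI, rfl⟩ := h
  have hD := DD_pos
  have hlen := hI.length_eq
  have hpw := pwB_spec L hp
  have hsep : ∀ k l : ℕ, (hk : k < L.length) → (hl : l < L.length) → k ≠ l →
      sepB L[k] L[l] = true := by
    intro k l hk hl hkl
    rcases Nat.lt_or_gt_of_ne hkl with h | h
    · exact (List.pairwise_iff_getElem.mp hpw) k l hk hl h
    · have := (List.pairwise_iff_getElem.mp hpw) l k hl hk h
      simp only [sepB, Bool.or_eq_true, decide_eq_true_eq] at this ⊢
      exact this.symm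
  have hBR : ∀ k : ℕ, (hk : k < L.length) → BR L[k] (I[k]'(hlen ▸ hk)) := by
    intro k hk
    exact List.Forall₂.get hI hk (hlen ▸ hk)
  have hcut : ∀ k : ℕ, (hk : k < L.length) → ((L[k].bh : ℝ) + 1) / DD ∉ U I := by
    rintro k hk ⟨i, hi, h1, h2⟩
    obtain ⟨l, hl, rfl⟩ := List.getElem_of_mem hi
    have hl' : l < L.length := hlen ▸ hl
    rw [le_div_iff₀ hD] at h1
    rw [div_le_iff₀ hD] at h2
    have hl1 := hBR l hl'
    have hk1 := hBR k hk
    by_cases hkl : k = l
    · subst hkl
      have := hl1.2.1.2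
      simp only at this
      linarith
    · have h3 := hsep k l hk hl' hkl
      simp only [sepB, Bool.or_eq_true, decide_eq_true_eq] at h3
      rcases h3 with h3 | h3
      · have h4 : (L[k].bh : ℝ) + 1 < L[l].al := by exact_mod_cast h3
        have := hl1.1.1
        simp only at this
        linarith
      · have h4 : (L[l].bh : ℝ) + 1 < L[k].al := by exact_mod_cast h3
        have a1 := hl1.2.1.2
        have a2 := hk1.1.1
        have a3 := hk1.2.1.2
        have a4 := mul_le_mul_of_nonneg_right hk1.2.2.2 hD.le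
        simp only at a1 a2 a3
        linarith
  unfold nC
  have hmem : ∀ k : Fin L.length, (I[k.1]'(hlen ▸ k.2)).1 ∈ U I := fun k =>
    ⟨I[k.1]'(hlen ▸ k.2), List.getElem_mem _, le_rfl, (hBR k.1 k.2).2.2.2⟩
  let f : Fin L.length → ConnectedComponents (U I) := fun k =>
    ((⟨(I[k.1]'(hlen ▸ k.2)).1, hmem k⟩ : U I) : ConnectedComponents (U I))
  have hlt : ∀ k l : Fin L.length, L[k.1].bh + 1 < L[l.1].al → f k ≠ f l := by
    intro k l h
    apply diff_comp (hcut k.1 k.2)
    · rw [le_div_iff₀ hD]
      have h1 := (hBR k.1 k.2).2.1.2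
      have h2 := mul_le_mul_of_nonneg_right (hBR k.1 k.2).2.2.2 hD.le
      simp only at h1 ⊢
      linarith
    · rw [div_le_iff₀ hD]
      have h1 := (hBR l.1 l.2).1.1
      have h4 : (L[k.1].bh : ℝ) + 1 < L[l.1].al := by exact_mod_cast h
      simp only at h1 ⊢
      linarith
  have hf : Function.Injective f := by
    intro k l hkl
    by_contra hne
    have h3 := hsep k.1 l.1 k.2 l.2 (fun h => hne (Fin.ext h))
    simp only [sepB, Bool.or_eq_true, decide_eq_true_eq] at h3
    rcases h3 with h3 | h3
    · exact hlt k l h3 hkl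
    · exact hlt l k h3 hkl.symm
  have := ENat.card_le_card_of_injective hf
  simpa using this

end Pool.R342.Sig
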