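import Pool.Agent.R342.Sig.Comp

set_option autoImplicit false

namespace Pool.R342.Sig

open Finset Filter Topology

/-- primality (numbers below `14400`) by trial division up to `119` -/
def isPs (n : ℕ) : Bool :=
  decide (2 ≤ n) && decide (n < 14400) &&
    (List.range 120).all (fun d => decide (d < 2) || decide (n < d * d) || decide (n % d ≠ 0))

lemma isPs_spec {n : ℕ} (h : isPs n = true) : n.Prime := by
  simp only [isPs, Bool.and_eq_true, decide_eq_true_eq, List.all_eq_true, List.mem_range,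
    Bool.or_eq_true] at h
  obtain ⟨⟨h1, h2⟩, h3⟩ := h
  rw [Nat.prime_def_le_sqrt]
  refine ⟨h1, fun m hm1 hm2 hd => ?_⟩
  rw [Nat.le_sqrt] at hm2
  have hm3 : m < 120 := by nlinarith
  rcases h3 m hm3 with (h4 | h4) | h4
  · omega
  · omega
  · exact h4 (Nat.mod_eq_zero_of_dvd hd)

/-- one covering block: for `p ≤ n < e`, the listed primes `q ≥ e` with rational lower bounds
`c / 10^6` for `(p/q)^(13/3)` -/
structure CB where
  p : ℕ
  e : ℕ
  l : List (ℕ × ℕ)

def incr : List (ℕ × ℕ) → Bool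
  | [] => true
  | a :: l => l.all (fun b => decide (a.1 < b.1)) && incr l

def CB.ok (b : CB) : Bool :=
  b.l.all (fun x => isPs x.1 && decide (b.e ≤ x.1) && decide (x.2 ^ 3 * x.1 ^ 13 ≤ b.p ^ 13 * 10 ^ 18)) &&
    decide (10 ^ 6 ≤ (b.l.map (fun x => x.2)).sum) && incr b.l

lemma incr_nodup : ∀ l : List (ℕ × ℕ), incr l = true → (l.map Prod.fst).Nodup := by
  intro l
  induction l with
  | nil => intro _; simp
  | cons a l ih =>
    intro h
    simp only [incr, Bool.and_eq_true, List.all_eq_true, decide_eq_true_eq] at h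
    rw [List.map_cons, List.nodup_cons]
    refine ⟨fun hm => ?_, ih h.2⟩
    obtain ⟨b, hb, hb2⟩ := List.mem_map.mp hm
    have := h.1 b hb
    omega

lemma ratio_pow {r : ℝ} (hr : r ≤ 13 / 3) {p n q c : ℕ} (hp : 0 < p) (hpn : p ≤ n)
    (hnq : n < q) (hc : c ^ 3 * q ^ 13 ≤ p ^ 13 * 10 ^ 18) :
    (c : ℝ) / 10 ^ 6 * fx r n ≤ fx r q := by
  have hp' : (0 : ℝ) < p := by exact_mod_cast hp
  have hn' : (0 : ℝ) < n := by exact_mod_cast (lt_of_lt_of_le hp hpn)
  have hq' : (0 : ℝ) < q := by exact_mod_cast (by omega : 0 < q)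
  have h1 : fx r q = ((n : ℝ) / q) ^ r * fx r n := by
    unfold fx
    rw [Real.div_rpow hn'.le hq'.le, Real.rpow_neg hq'.le, Real.rpow_neg hn'.le]
    have := Real.rpow_pos_of_pos hn' r
    field_simp
  have h2 : ((p : ℝ) / q) ^ ((13 : ℝ) / 3) ≤ ((n : ℝ) / q) ^ r := by
    have hle : (p : ℝ) / q ≤ (n : ℝ) / q := by
      apply div_le_div_of_nonneg_right _ hq'.le
      exact_mod_cast hpn
    have hlt : (n : ℝ) / q ≤ 1 := by
      rw [div_le_one hq']; exact_mod_cast hnq.le
    calc ((p : ℝ) / q) ^ ((13 : ℝ) / 3) ≤ ((n : ℝ) / q) ^ ((13 : ℝ) / 3) :=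
          Real.rpow_le_rpow (by positivity) hle (by norm_num)
      _ ≤ ((n : ℝ) / q) ^ r :=
          Real.rpow_le_rpow_of_exponent_ge (by positivity) hlt hr
  have h3 : (c : ℝ) / 10 ^ 6 ≤ ((p : ℝ) / q) ^ ((13 : ℝ) / 3) := by
    have h4 : ((c : ℝ) / 10 ^ 6) ^ 3 ≤ ((p : ℝ) / q) ^ 13 := by
      rw [div_pow, div_pow, div_le_div_iff₀ (by positivity) (by positivity)]
      have : ((c ^ 3 * q ^ 13 : ℕ) : ℝ) ≤ ((p ^ 13 * 10 ^ 18 : ℕ) : ℝ) := by exact_mod_cast hc
      push_cast at this
      have e : ((10 : ℝ) ^ 6) ^ 3 = 10 ^ 18 := by norm_num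
      rw [e]
      norm_num at this ⊢
      exact this
    have h5 : (((p : ℝ) / q) ^ ((13 : ℝ) / 3)) ^ 3 = ((p : ℝ) / q) ^ 13 := by
      rw [← Real.rpow_natCast (((p : ℝ) / q) ^ ((13 : ℝ) / 3)) 3, ← Real.rpow_mul (by positivity),
        ← Real.rpow_natCast _ 13]
      norm_num
    rw [← h5] at h4
    exact (pow_le_pow_iff_left₀ (by positivity) (by positivity) (by norm_num)).mp h4
  rw [h1]
  have := fx_pos r (show 0 < n by omega)
  exact mul_le_mul_of_nonneg_right (h3.trans h2) this.le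

lemma CB_cond {r : ℝ} (hr4 : 4 ≤ r) (hr : r ≤ 13 / 3) (b : CB) (hb : b.ok = true) (hp : 2 ≤ b.p) {n : ℕ}
    (h1 : b.p ≤ n) (h2 : n < b.e) : 1 + fx r n ≤ TT r (n + 1) := by
  simp only [CB.ok, Bool.and_eq_true, decide_eq_true_eq, List.all_eq_true] at hb
  obtain ⟨⟨h3, h4⟩, h5⟩ := hb
  have hnd := incr_nodup _ h5
  have h6 := sum_le_TT hr4 (show 2 ≤ n + 1 by omega) ((b.l.map Prod.fst).toFinset) (by
    intro q hq
    rw [List.mem_toFinset] at hq
    obtain ⟨x, hx, rfl⟩ := List.mem_map.mp hq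
    have := h3 x hx
    exact ⟨isPs_spec this.1.1, by omega⟩)
  rw [List.sum_toFinset _ hnd, List.map_map] at h6
  have h7 : ∀ l : List (ℕ × ℕ), (∀ x ∈ l, (x.2 : ℝ) / 10 ^ 6 * fx r n ≤ fx r x.1) →
      (((l.map (fun x => x.2)).sum : ℕ) : ℝ) / 10 ^ 6 * fx r n ≤ (l.map (fx r ∘ Prod.fst)).sum := by
    intro l
    induction l with
    | nil => intro _; simp
    | cons a l ih =>
      intro h
      have i1 := ih (fun x hx => h x (List.mem_cons_of_mem _ hx))
      have i2 := h a (List.mem_cons_self)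
      rw [List.map_cons, List.sum_cons, List.map_cons, List.sum_cons, Nat.cast_add, add_div, add_mul]
      exact add_le_add i2 i1
  have h8 := h7 b.l (fun x hx => by
    have := h3 x hx
    exact ratio_pow hr (by omega) h1 (by omega) this.2)
  have h9 : (1 : ℝ) ≤ (((b.l.map (fun x => x.2)).sum : ℕ) : ℝ) / 10 ^ 6 := by
    rw [le_div_iff₀ (by norm_num)]
    have : ((10 ^ 6 : ℕ) : ℝ) ≤ (((b.l.map (fun x => x.2)).sum : ℕ) : ℝ) := by exact_mod_cast h4
    norm_num at this ⊢
    linarith
  have h10 := fx_pos r (show 0 < n by omega)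
  nlinarith

def cb0 : CB := ⟨23, 29, [(29, 366237), (31, 274317), (37, 127432), (41, 81675), (43, 66444), (47, 45192), (53, 26850), (59, 16870)]⟩
def cb1 : CB := ⟨29, 37, [(37, 347950), (41, 223011), (43, 181423), (47, 123395), (53, 73315), (59, 46064), (61, 39868)]⟩
def cb2 : CB := ⟨37, 47, [(47, 354636), (53, 210706), (59, 132388), (61, 114580), (67, 76304), (71, 59350), (73, 52618)]⟩
def cb3 : CB := ⟨47, 67, [(67, 215162), (71, 167354), (73, 148374), (79, 105367), (83, 85065), (89, 62863), (97, 43292), (101, 36338), (103, 33378), (107, 28298), (109, 26116), (113, 22340), (127, 13467), (131, 11773), (137, 9696)]⟩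
def cb4 : CB := ⟨67, 101, [(101, 168887), (103, 155130), (107, 131520), (109, 121378), (113, 103828), (127, 62590), (131, 54720), (137, 45068), (139, 42324), (149, 31322), (151, 29563), (157, 24970), (163, 21224), (167, 19108)]⟩
def cb5 : CB := ⟨101, 163, [(163, 125674), (167, 113141), (173, 97094), (179, 83758), (181, 79821), (191, 63228), (193, 60438), (197, 55297), (199, 52929), (211, 41067), (223, 32315), (227, 29919), (229, 28803), (233, 26720), (239, 23933), (241, 23084), (251, 19355), (257, 17472), (263, 15809), (269, 14337)]⟩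
def cb6 : CB := ⟨163, 277, [(277, 100477), (281, 94424), (283, 91566), (293, 78774), (307, 64349), (311, 60839), (313, 59172), (317, 56004), (331, 46439), (337, 42961), (347, 37848), (349, 36917), (353, 35138), (359, 32664), (367, 29688), (373, 27674), (379, 25825), (383, 24676), (389, 23069), (397, 21121), (401, 20223)]⟩
def cb7 : CB := ⟨277, 503, [(503, 75384), (509, 71609), (521, 64731), (523, 63665), (541, 54982), (547, 52416), (557, 48458), (563, 46260), (569, 44183), (571, 43516), (577, 41589), (587, 38605), (593, 36941), (599, 35364), (601, 34856), (607, 33388), (613, 31995), (617, 31105), (619, 30672), (631, 28223), (641, 26364), (643, 26011), (647, 25321), (653, 24328)]⟩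
def cb8 : CB := ⟨503, 977, [(977, 56309), (983, 54835), (991, 52943), (997, 51576), (1009, 48970), (1013, 48137), (1019, 46921), (1021, 46524), (1031, 44600), (1033, 44227), (1039, 43131), (1049, 41377), (1051, 41037), (1061, 39387), (1063, 39067), (1069, 38126), (1087, 35464), (1091, 34904), (1093, 34629), (1097, 34085), (1103, 33288), (1109, 32515), (1117, 31518), (1123, 30795)]⟩
def cb9 : CB := ⟨977, 1949, [(1949, 50160), (1951, 49937), (1973, 47569), (1979, 46947), (1987, 46133), (1993, 45534), (1997, 45141), (1999, 44945), (2003, 44557), (2011, 43794), (2017, 43233), (2027, 42316), (2029, 42136), (2039, 41247), (2053, 40042), (2063, 39208), (2069, 38718), (2081, 37759), (2083, 37603), (2087, 37291), (2089, 37137), (2099, 36376), (2111, 35489), (2113, 35343)]⟩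
def cb10 : CB := ⟨1949, 3947, [(3947, 46992), (3967, 45974), (3989, 44885), (4001, 44305), (4003, 44209), (4007, 44018), (4013, 43733), (4019, 43451), (4021, 43358), (4027, 43078), (4049, 42073), (4051, 41983), (4057, 41715), (4073, 41009), (4079, 40749), (4091, 40233), (4093, 40148), (4099, 39894), (4111, 39392), (4127, 38734), (4129, 38653), (4133, 38491), (4139, 38250), (4153, 37694)]⟩
def cb11 : CB := ⟨3947, 8111, [(8111, 44106), (8117, 43965), (8123, 43824), (8147, 43268), (8161, 42947), (8167, 42810), (8171, 42720), (8179, 42539), (8191, 42269), (8209, 41869), (8219, 41649), (8221, 41605), (8231, 41386), (8233, 41343), (8237, 41256), (8243, 41126), (8263, 40696), (8269, 40569), (8273, 40484), (8287, 40188), (8291, 40104), (8293, 40062), (8297, 39979), (8311, 39688)]⟩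

lemma cond_small {r : ℝ} (hr4 : 4 ≤ r) (hr : r ≤ 13 / 3) {n : ℕ} (h1 : 23 ≤ n) (h2 : n < 8111) :
    1 + fx r n ≤ TT r (n + 1) := by
  rcases (show (23 ≤ n ∧ n < 29) ∨ (29 ≤ n ∧ n < 37) ∨ (37 ≤ n ∧ n < 47) ∨ (47 ≤ n ∧ n < 67) ∨ (67 ≤ n ∧ n < 101) ∨ (101 ≤ n ∧ n < 163) ∨ (163 ≤ n ∧ n < 277) ∨ (277 ≤ n ∧ n < 503) ∨ (503 ≤ n ∧ n < 977) ∨ (977 ≤ n ∧ n < 1949) ∨ (1949 ≤ n ∧ n < 3947) ∨ (3947 ≤ n ∧ n < 8111) by omega) with
    h | h | h | h | h | h | h | h | h | h | h | h
  · exact CB_cond hr4 hr cb0 (by decide +kernel) (by decide) h.1 h.2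
  · exact CB_cond hr4 hr cb1 (by decide +kernel) (by decide) h.1 h.2
  · exact CB_cond hr4 hr cb2 (by decide +kernel) (by decide) h.1 h.2
  · exact CB_cond hr4 hr cb3 (by decide +kernel) (by decide) h.1 h.2
  · exact CB_cond hr4 hr cb4 (by decide +kernel) (by decide) h.1 h.2
  · exact CB_cond hr4 hr cb5 (by decide +kernel) (by decide) h.1 h.2
  · exact CB_cond hr4 hr cb6 (by decide +kernel) (by decide) h.1 h.2
  · exact CB_cond hr4 hr cb7 (by decide +kernel) (by decide) h.1 h.2
  · exact CB_cond hr4 hr cb8 (by decide +kernel) (by decide) h.1 h.2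
  · exact CB_cond hr4 hr cb9 (by decide +kernel) (by decide) h.1 h.2
  · exact CB_cond hr4 hr cb10 (by decide +kernel) (by decide) h.1 h.2
  · exact CB_cond hr4 hr cb11 (by decide +kernel) (by decide) h.1 h.2

end Pool.R342.Sig
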