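import Pool.Agent.R342.Sig.Cond

set_option autoImplicit false

namespace Pool.R342.Sig

open Finset Filter Topology

lemma analytic {y : ℝ} (hy : 18000 ≤ y) :
    Real.log (y + 1) + 2 * Real.sqrt y * Real.log y + 116 * Real.log y < y / 3 * Real.log 2 := by
  obtain ⟨w, hw0, hwy⟩ : ∃ w : ℝ, 0 ≤ w ∧ w ^ 4 = y := by
    refine ⟨Real.sqrt (Real.sqrt y), Real.sqrt_nonneg _, ?_⟩
    have h1 : Real.sqrt (Real.sqrt y) ^ 2 = Real.sqrt y := Real.sq_sqrt (Real.sqrt_nonneg _)
    calc Real.sqrt (Real.sqrt y) ^ 4 = (Real.sqrt (Real.sqrt y) ^ 2) ^ 2 := by ring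
      _ = Real.sqrt y ^ 2 := by rw [h1]
      _ = y := Real.sq_sqrt (by linarith)
  have hs : Real.sqrt y = w ^ 2 := by
    rw [← hwy]
    have : w ^ 4 = (w ^ 2) ^ 2 := by ring
    rw [this, Real.sqrt_sq (by positivity)]
  have hw : (11.5 : ℝ) ≤ w := by
    by_contra h
    push Not at h
    have : w ^ 4 < 11.5 ^ 4 := pow_lt_pow_left₀ h hw0 (by norm_num)
    norm_num at this
    linarith
  have hwp : 0 < w := by linarith
  have h2l := Real.log_two_gt_d9
  have h2u := Real.log_two_lt_d9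
  have hlogw : Real.log w ≤ w / 16 - 1 + 4 * Real.log 2 := by
    have h1 : Real.log (w / 16) ≤ w / 16 - 1 := Real.log_le_sub_one_of_pos (by positivity)
    rw [Real.log_div hwp.ne' (by norm_num)] at h1
    have h2 : Real.log 16 = 4 * Real.log 2 := by
      rw [show (16 : ℝ) = 2 ^ 4 by norm_num, Real.log_pow]; norm_num
    linarith
  have hlogy : Real.log y = 4 * Real.log w := by
    rw [← hwy, Real.log_pow]; norm_num
  have hlogy' : Real.log y ≤ w / 4 + 7.0904 := by
    rw [hlogy]; linarith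
  have hy0 : 0 < y := by linarith
  have hlog1 : Real.log (y + 1) ≤ Real.log y + 1 := by
    have h1 : Real.log ((y + 1) / y) ≤ (y + 1) / y - 1 := Real.log_le_sub_one_of_pos (by positivity)
    rw [Real.log_div (by linarith) hy0.ne'] at h1
    have h2 : (y + 1) / y - 1 ≤ 1 := by
      rw [sub_le_iff_le_add, div_le_iff₀ hy0]; linarith
    linarith
  rw [hs]
  have hL : Real.log (y + 1) + 2 * w ^ 2 * Real.log y + 116 * Real.log y ≤
      (2 * w ^ 2 + 117) * (w / 4 + 7.0904) + 1 := by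
    have h1 : (2 * w ^ 2 + 117) * Real.log y ≤ (2 * w ^ 2 + 117) * (w / 4 + 7.0904) :=
      mul_le_mul_of_nonneg_left hlogy' (by positivity)
    nlinarith
  have hR : y / 3 * 0.6931 ≤ y / 3 * Real.log 2 :=
    mul_le_mul_of_nonneg_left (by linarith) (by positivity)
  have hpoly : (2 * w ^ 2 + 117) * (w / 4 + 7.0904) + 1 < y / 3 * 0.6931 := by
    rw [← hwy]
    obtain ⟨z, hz⟩ : ∃ z, w = 11.5 + z := ⟨w - 11.5, by ring⟩
    have hz0 : 0 ≤ z := by linarith
    rw [hz]
    have : 0 < (11.5 + z) ^ 4 / 3 * 0.6931 - ((2 * (11.5 + z) ^ 2 + 117) * ((11.5 + z) / 4 + 7.0904) + 1) := by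
      ring_nf
      positivity
    linarith
  linarith

lemma many_primes {n : ℕ} (hn : 6000 ≤ n) :
    117 ≤ ((Finset.Ioc n (3 * n)).filter Nat.Prime).card := by
  by_contra hcon
  push Not at hcon
  have hn' : (6000 : ℝ) ≤ n := by exact_mod_cast hn
  have h1 := Chebyshev.theta_ge (3 * n)
  have h2 := Chebyshev.theta_le_log4_mul_x (x := (n : ℝ)) (by positivity)
  have h3 : Chebyshev.theta ((3 * n : ℕ) : ℝ) = Chebyshev.theta (n : ℝ) +
      ∑ p ∈ (Finset.Ioc n (3 * n)).filter Nat.Prime, Real.log p := by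
    unfold Chebyshev.theta
    rw [Nat.floor_natCast, Nat.floor_natCast, ← Finset.sum_union]
    · rw [← Finset.filter_union]
      congr 2
      ext m; simp only [Finset.mem_union, Finset.mem_Ioc]; omega
    · rw [Finset.disjoint_left]
      intro m hm1 hm2
      rw [Finset.mem_filter, Finset.mem_Ioc] at hm1 hm2
      omega
  have h4 : ∑ p ∈ (Finset.Ioc n (3 * n)).filter Nat.Prime, Real.log p ≤
      116 * Real.log ((3 * n : ℕ) : ℝ) := by
    have h5 : ∑ p ∈ (Finset.Ioc n (3 * n)).filter Nat.Prime, Real.log p ≤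
        ∑ p ∈ (Finset.Ioc n (3 * n)).filter Nat.Prime, Real.log ((3 * n : ℕ) : ℝ) := by
      apply Finset.sum_le_sum
      intro p hp
      rw [Finset.mem_filter, Finset.mem_Ioc] at hp
      apply Real.log_le_log
      · have := hp.2.pos; exact_mod_cast this
      · exact_mod_cast hp.1.2
    rw [Finset.sum_const, nsmul_eq_mul] at h5
    refine h5.trans (mul_le_mul_of_nonneg_right ?_ (Real.log_nonneg ?_))
    · exact_mod_cast (by omega : ((Finset.Ioc n (3 * n)).filter Nat.Prime).card ≤ 116)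
    · exact_mod_cast (by omega : 1 ≤ 3 * n)
  have h6 := analytic (y := ((3 * n : ℕ) : ℝ)) (by push_cast; linarith)
  have h7 : Real.log 4 = 2 * Real.log 2 := by
    rw [show (4 : ℝ) = 2 ^ 2 by norm_num, Real.log_pow]; norm_num
  rw [h7] at h2
  push_cast at h1 h3 h4 h6
  nlinarith

lemma cond_large {r : ℝ} (hr4 : 4 ≤ r) (hr : r ≤ 13 / 3) {n : ℕ} (hn : 6000 ≤ n) :
    1 + fx r n ≤ TT r (n + 1) := by
  set F := (Finset.Ioc n (3 * n)).filter Nat.Prime with hF
  have h1 := sum_le_TT hr4 (show 2 ≤ n + 1 by omega) F (by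
    intro q hq
    rw [hF, Finset.mem_filter, Finset.mem_Ioc] at hq
    exact ⟨hq.2, by omega⟩)
  have h2 : ∀ q ∈ F, fx r n / 117 ≤ fx r q := by
    intro q hq
    rw [hF, Finset.mem_filter, Finset.mem_Ioc] at hq
    have hn' : (0 : ℝ) < n := by exact_mod_cast (by omega : 0 < n)
    have hq' : (0 : ℝ) < q := by exact_mod_cast (by omega : 0 < q)
    have h3 : fx r q = ((n : ℝ) / q) ^ r * fx r n := by
      unfold fx
      rw [Real.div_rpow hn'.le hq'.le, Real.rpow_neg hq'.le, Real.rpow_neg hn'.le]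
      have := Real.rpow_pos_of_pos hn' r
      field_simp
    have h4 : (1 : ℝ) / 3 ≤ (n : ℝ) / q := by
      rw [div_le_div_iff₀ (by norm_num) hq']
      have : (q : ℝ) ≤ 3 * n := by exact_mod_cast hq.1.2
      linarith
    have h5 : (n : ℝ) / q ≤ 1 := by
      rw [div_le_one hq']; exact_mod_cast hq.1.1.le
    have h6 : (1 : ℝ) / 117 ≤ ((n : ℝ) / q) ^ r := by
      calc (1 : ℝ) / 117 ≤ ((1 : ℝ) / 3) ^ ((13 : ℝ) / 3) := by
            have e : (((1 : ℝ) / 3) ^ ((13 : ℝ) / 3)) ^ 3 = ((1 : ℝ) / 3) ^ 13 := by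
              rw [← Real.rpow_natCast (((1 : ℝ) / 3) ^ ((13 : ℝ) / 3)) 3, ← Real.rpow_mul (by positivity),
                ← Real.rpow_natCast _ 13]
              norm_num
            rw [← pow_le_pow_iff_left₀ (by positivity) (by positivity) (by norm_num : (3 : ℕ) ≠ 0), e]
            norm_num
        _ ≤ ((n : ℝ) / q) ^ ((13 : ℝ) / 3) := Real.rpow_le_rpow (by positivity) h4 (by norm_num)
        _ ≤ ((n : ℝ) / q) ^ r := Real.rpow_le_rpow_of_exponent_ge (by positivity) h5 hr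
    rw [h3]
    have h7 := fx_pos r (show 0 < n by omega)
    calc fx r n / 117 = 1 / 117 * fx r n := by ring
      _ ≤ _ := mul_le_mul_of_nonneg_right h6 h7.le
  have h3 : (F.card : ℝ) * (fx r n / 117) ≤ ∑ q ∈ F, fx r q := by
    have := Finset.card_nsmul_le_sum F (fx r) _ h2
    rwa [nsmul_eq_mul] at this
  have h4 : (117 : ℝ) ≤ F.card := by exact_mod_cast many_primes hn
  have h5 := fx_pos r (show 0 < n by omega)
  have h6 : fx r n ≤ (F.card : ℝ) * (fx r n / 117) := by
    rw [mul_div_assoc', le_div_iff₀ (by norm_num)]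
    nlinarith
  linarith

lemma cond_all {r : ℝ} (hr4 : 4 ≤ r) (hr : r ≤ 13 / 3) {n : ℕ} (hn : 23 ≤ n) :
    1 + fx r n ≤ TT r (n + 1) := by
  rcases Nat.lt_or_ge n 8111 with h | h
  · exact cond_small hr4 hr hn h
  · exact cond_large hr4 hr (by omega)

end Pool.R342.Sig
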