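import Pool.Agent.R342.Sig.DatR
import Pool.Agent.R342.Sig.DatS

set_option autoImplicit false

namespace Pool.R342.Sig

open Finset Filter Topology

lemma tl_ok : (1 - mj 300)⁻¹ * DD ≤ DD + ((28753778750 : ℕ) : ℝ) := by
  unfold mj DD
  norm_num

lemma xb_spec {a b : ℕ} (hb : 0 < b) (xb : ℕ → ℕ × ℕ)
    (h : (List.range 300).all (fun N => !isP N ||
      (decide ((xb N).2 < DD) && decide ((xb N).1 ^ b * N ^ a ≤ DD ^ b) &&
        decide (DD ^ b ≤ (xb N).2 ^ b * N ^ a))) = true) :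
    ∀ p, p < 300 → p.Prime → Bd (xb p) (fx ((a : ℝ) / b) p) ∧ (xb p).2 < DD := by
  intro p hp hpp
  rw [List.all_eq_true] at h
  have h1 := h p (List.mem_range.mpr hp)
  have h2 : isP p = true := (isP_iff p).mpr hpp
  simp only [h2, Bool.not_true, Bool.false_or, Bool.and_eq_true, decide_eq_true_eq] at h1
  exact ⟨Bd_rat hb hpp.pos h1.1.2 h1.2, h1.1.1⟩

lemma rep_step' {r : ℝ} (hr : 0 < r) {xb : ℕ → ℕ × ℕ}
    (hx : ∀ p, p < 300 → p.Prime → Bd (xb p) (fx r p) ∧ (xb p).2 < DD) (p : ℕ) (hp : p.Prime)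
    (hp3 : p < 300) (q : ℕ) (A : ℕ) {L L' : List Blk} (hq : SS r (p + 1) = SS r q)
    (hL : Rep L (closure (SS r q))) (h1 : mergeB (stepB (xb p) A L) = L')
    (h2 : chkB (xb p) A L = true) : Rep L' (closure (SS r p)) := by
  rw [SS_prime r hp, hq, ← h1]
  exact Rep_step (fx_pos r hp.pos) (fx_lt_one hr hp.one_lt) (hx p hp3 hp).1 A hL h2

lemma skip1 (r : ℝ) {n : ℕ} (h : ¬ n.Prime) : SS r n = SS r (n + 1) := SS_notprime r h

lemma base_rep {r : ℝ} (hr4 : 4 ≤ r) (hr : r ≤ 13 / 3) {xb : ℕ → ℕ × ℕ}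
    (hx : ∀ p, p < 300 → p.Prime → Bd (xb p) (fx r p) ∧ (xb p).2 < DD) (u v : ℕ)
    (ht : tbf xb 28753778750 277 = (u, v)) : Rep [⟨DD, DD, u, v⟩] (closure (SS r 23)) := by
  refine ⟨[(1, TT r 23)], ?_, ?_⟩
  · refine List.Forall₂.cons ⟨?_, ?_, ?_, ?_⟩ List.Forall₂.nil
    · simp [Bd]
    · have := tbf_spec hr4 xb 28753778750 tl_ok hx 277 (by norm_num)
      rw [ht] at this
      exact this
    · norm_num
    · exact one_le_TT hr4 (by norm_num)
  · rw [closure_SS hr4 (by norm_num : 2 ≤ 23) (fun n hn _ => cond_all hr4 hr hn), U_cons]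
    simp [U]

lemma s20 (r : ℝ) : SS r (19 + 1) = SS r 23 := by
  rw [skip1 r (n := 19 + 1) (by norm_num), skip1 r (n := 19 + 1 + 1) (by norm_num),
    skip1 r (n := 19 + 1 + 1 + 1) (by norm_num)]
lemma s18 (r : ℝ) : SS r (17 + 1) = SS r 19 := by
  rw [skip1 r (n := 17 + 1) (by norm_num)]
lemma s14 (r : ℝ) : SS r (13 + 1) = SS r 17 := by
  rw [skip1 r (n := 13 + 1) (by norm_num), skip1 r (n := 13 + 1 + 1) (by norm_num),
    skip1 r (n := 13 + 1 + 1 + 1) (by norm_num)]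
lemma s12 (r : ℝ) : SS r (11 + 1) = SS r 13 := by
  rw [skip1 r (n := 11 + 1) (by norm_num)]
lemma s8 (r : ℝ) : SS r (7 + 1) = SS r 11 := by
  rw [skip1 r (n := 7 + 1) (by norm_num), skip1 r (n := 7 + 1 + 1) (by norm_num),
    skip1 r (n := 7 + 1 + 1 + 1) (by norm_num)]
lemma s6 (r : ℝ) : SS r (5 + 1) = SS r 7 := by
  rw [skip1 r (n := 5 + 1) (by norm_num)]
lemma s4 (r : ℝ) : SS r (3 + 1) = SS r 5 := by
  rw [skip1 r (n := 3 + 1) (by norm_num)]
lemma s3 (r : ℝ) : SS r (2 + 1) = SS r 3 := rfl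

theorem repR : Rep DatR.L2 (closure (SS (56 / 13 : ℝ) 2)) := by
  have hr4 : (4 : ℝ) ≤ 56 / 13 := by norm_num
  have hr : (56 / 13 : ℝ) ≤ 13 / 3 := by norm_num
  have hr0 : (0 : ℝ) < 56 / 13 := by norm_num
  have hx : ∀ p, p < 300 → p.Prime → Bd (DatR.xb p) (fx (56 / 13 : ℝ) p) ∧ (DatR.xb p).2 < DD := by
    have := xb_spec (a := 56) (b := 13) (by norm_num) DatR.xb DatR.chkTab_ok
    simpa using this
  have b := base_rep hr4 hr hx _ _ DatR.tb
  have l19 := rep_step' hr0 hx 19 (by norm_num) (by norm_num) 23 1 (s20 _) b DatR.step19 DatR.chk19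
  have l17 := rep_step' hr0 hx 17 (by norm_num) (by norm_num) 19 1 (s18 _) l19 DatR.step17 DatR.chk17
  have l13 := rep_step' hr0 hx 13 (by norm_num) (by norm_num) 17 1 (s14 _) l17 DatR.step13 DatR.chk13
  have l11 := rep_step' hr0 hx 11 (by norm_num) (by norm_num) 13 1 (s12 _) l13 DatR.step11 DatR.chk11
  have l7 := rep_step' hr0 hx 7 (by norm_num) (by norm_num) 11 1 (s8 _) l11 DatR.step7 DatR.chk7
  have l5 := rep_step' hr0 hx 5 (by norm_num) (by norm_num) 7 1 (s6 _) l7 DatR.step5 DatR.chk5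
  have l3 := rep_step' hr0 hx 3 (by norm_num) (by norm_num) 5 2 (s4 _) l5 DatR.step3 DatR.chk3
  exact rep_step' hr0 hx 2 (by norm_num) (by norm_num) 3 4 (s3 _) l3 DatR.step2 DatR.chk2

theorem repS : Rep DatS.L2 (closure (SS (108 / 25 : ℝ) 2)) := by
  have hr4 : (4 : ℝ) ≤ 108 / 25 := by norm_num
  have hr : (108 / 25 : ℝ) ≤ 13 / 3 := by norm_num
  have hr0 : (0 : ℝ) < 108 / 25 := by norm_num
  have hx : ∀ p, p < 300 → p.Prime → Bd (DatS.xb p) (fx (108 / 25 : ℝ) p) ∧ (DatS.xb p).2 < DD := by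
    have := xb_spec (a := 108) (b := 25) (by norm_num) DatS.xb DatS.chkTab_ok
    simpa using this
  have b := base_rep hr4 hr hx _ _ DatS.tb
  have l19 := rep_step' hr0 hx 19 (by norm_num) (by norm_num) 23 1 (s20 _) b DatS.step19 DatS.chk19
  have l17 := rep_step' hr0 hx 17 (by norm_num) (by norm_num) 19 1 (s18 _) l19 DatS.step17 DatS.chk17
  have l13 := rep_step' hr0 hx 13 (by norm_num) (by norm_num) 17 1 (s14 _) l17 DatS.step13 DatS.chk13
  have l11 := rep_step' hr0 hx 11 (by norm_num) (by norm_num) 13 1 (s12 _) l13 DatS.step11 DatS.chk11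
  have l7 := rep_step' hr0 hx 7 (by norm_num) (by norm_num) 11 1 (s8 _) l11 DatS.step7 DatS.chk7
  have l5 := rep_step' hr0 hx 5 (by norm_num) (by norm_num) 7 1 (s6 _) l7 DatS.step5 DatS.chk5
  have l3 := rep_step' hr0 hx 3 (by norm_num) (by norm_num) 5 2 (s4 _) l5 DatS.step3 DatS.chk3
  exact rep_step' hr0 hx 2 (by norm_num) (by norm_num) 3 4 (s3 _) l3 DatS.step2 DatS.chk2

theorem nC_R : nC (closure (sg (56 / 13 : ℝ) '' {n | 0 < n})) = 253 := by
  rw [← SS_two]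
  apply le_antisymm
  · have := Rep_nC_le repR
    rw [DatR.len] at this
    exact_mod_cast this
  · have := Rep_le_nC repR DatR.pw
    rw [DatR.len] at this
    exact_mod_cast this

theorem nC_S : nC (closure (sg (108 / 25 : ℝ) '' {n | 0 < n})) = 251 := by
  rw [← SS_two]
  apply le_antisymm
  · have := Rep_nC_le repS
    rw [DatS.len] at this
    exact_mod_cast this
  · have := Rep_le_nC repS DatS.pw
    rw [DatS.len] at this
    exact_mod_cast this

end Pool.R342.Sig
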