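import Pool.Agent.R342.Sig.Tail

set_option autoImplicit false

namespace Pool.R342.Sig

open Finset Filter Topology

/-- fixed-point scale `2^60` -/
def DD : ℕ := 1152921504606846976

/-- `y` lies between `b.1 / DD` and `b.2 / DD` -/
def Bd (b : ℕ × ℕ) (y : ℝ) : Prop := (b.1 : ℝ) ≤ y * DD ∧ y * DD ≤ (b.2 : ℝ)

lemma DD_pos : (0 : ℝ) < (DD : ℝ) := by unfold DD; norm_num
lemma DD_posN : 0 < DD := by unfold DD; norm_num

def mulLo (a b : ℕ) : ℕ := a * b / DD
def mulHi (a b : ℕ) : ℕ := a * b / DD + 1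

lemma mulLo_spec {a b : ℕ} {y z : ℝ} (ha : (a : ℝ) ≤ y * DD) (hb : (b : ℝ) ≤ z * DD) :
    (mulLo a b : ℝ) ≤ y * z * DD := by
  have hD := DD_pos
  have h1 : ((a * b / DD : ℕ) : ℝ) ≤ ((a * b : ℕ) : ℝ) / (DD : ℝ) := Nat.cast_div_le
  unfold mulLo
  refine h1.trans ?_
  rw [div_le_iff₀ hD]
  push_cast
  have ha0 : (0 : ℝ) ≤ a := by positivity
  have hb0 : (0 : ℝ) ≤ b := by positivity
  calc (a : ℝ) * b ≤ (y * DD) * (z * DD) := mul_le_mul ha hb hb0 (by linarith)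
    _ = y * z * DD * DD := by ring

lemma mulHi_spec {a b : ℕ} {y z : ℝ} (hz : 0 ≤ z) (ha : y * DD ≤ a) (hb : z * DD ≤ b) :
    y * z * DD ≤ (mulHi a b : ℝ) := by
  have hD := DD_pos
  have h1 : ((a * b : ℕ) : ℝ) ≤ (DD : ℝ) * ((a * b / DD + 1 : ℕ) : ℝ) := by
    have := (Nat.lt_mul_div_succ (a * b) DD_posN).le
    exact_mod_cast this
  unfold mulHi
  push_cast at h1
  have hz' : 0 ≤ z * DD := by positivity
  have h2 : (y * DD) * (z * DD) ≤ (a : ℝ) * b := mul_le_mul ha hb hz' (by positivity)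
  have h3 : (y * z * DD) * DD ≤ ((a * b / DD : ℕ) + 1 : ℝ) * DD := by
    calc (y * z * DD) * DD = (y * DD) * (z * DD) := by ring
      _ ≤ (a : ℝ) * b := h2
      _ ≤ _ := h1
      _ = _ := by ring
  have := le_of_mul_le_mul_right h3 hD
  push_cast
  exact this

def mulB (x y : ℕ × ℕ) : ℕ × ℕ := (mulLo x.1 y.1, mulHi x.2 y.2)

lemma Bd_mul {x y : ℕ × ℕ} {s t : ℝ} (ht : 0 ≤ t) (hx : Bd x s) (hy : Bd y t) :
    Bd (mulB x y) (s * t) :=
  ⟨mulLo_spec hx.1 hy.1, mulHi_spec ht hx.2 hy.2⟩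

def faB (x : ℕ × ℕ) : ℕ → ℕ × ℕ
  | 0 => (DD, DD)
  | a + 1 => (DD + (mulB x (faB x a)).1, DD + (mulB x (faB x a)).2)

lemma Bd_fa {x : ℕ × ℕ} {y : ℝ} (hy : 0 ≤ y) (hx : Bd x y) (a : ℕ) : Bd (faB x a) (fa y a) := by
  induction a with
  | zero => simp [faB, fa_zero, Bd]
  | succ a ih =>
    have h1 := Bd_mul (by have := one_le_fa hy a; linarith) hx ih
    rw [fa_succ']
    unfold faB Bd
    push_cast
    constructor
    · have := h1.1; linarith
    · have := h1.2; linarith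

def infB (x : ℕ × ℕ) : ℕ × ℕ := (DD * DD / (DD - x.1), DD * DD / (DD - x.2) + 1)

lemma Bd_inf {x : ℕ × ℕ} {y : ℝ} (hy1 : y < 1) (hx : Bd x y) (hx2 : x.2 < DD) :
    Bd (infB x) (1 - y)⁻¹ := by
  have hD := DD_pos
  have h12 : (x.1 : ℝ) ≤ x.2 := hx.1.trans hx.2
  have h12' : x.1 ≤ x.2 := by exact_mod_cast h12
  have hx1 : x.1 < DD := by omega
  have hc1 : ((DD - x.1 : ℕ) : ℝ) = (DD : ℝ) - x.1 := by rw [Nat.cast_sub hx1.le]
  have hc2 : ((DD - x.2 : ℕ) : ℝ) = (DD : ℝ) - x.2 := by rw [Nat.cast_sub hx2.le]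
  have hp1 : (0 : ℝ) < (DD : ℝ) - x.1 := by
    have : (x.1 : ℝ) < DD := by exact_mod_cast hx1
    linarith
  have hp2 : (0 : ℝ) < (DD : ℝ) - x.2 := by
    have : (x.2 : ℝ) < DD := by exact_mod_cast hx2
    linarith
  have hy0 : 0 < 1 - y := by linarith
  constructor
  · unfold infB
    simp only
    refine (Nat.cast_div_le (α := ℝ)).trans ?_
    rw [hc1, div_le_iff₀ hp1]
    push_cast
    have h1 : (1 - y) * DD ≤ DD - x.1 := by have := hx.1; linarith
    have h2 : (DD : ℝ) ≤ (1 - y)⁻¹ * (DD - x.1) := by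
      rw [inv_mul_eq_div, le_div_iff₀ hy0]; linarith
    nlinarith
  · unfold infB
    simp only
    have h3 : (DD * DD : ℕ) ≤ (DD - x.2) * (DD * DD / (DD - x.2) + 1) :=
      (Nat.lt_mul_div_succ (DD * DD) (by omega)).le
    have h4 : ((DD * DD : ℕ) : ℝ) ≤ ((DD - x.2 : ℕ) : ℝ) * ((DD * DD / (DD - x.2) + 1 : ℕ) : ℝ) := by
      exact_mod_cast h3
    rw [hc2] at h4
    push_cast at h4 ⊢
    have h1 : DD - x.2 ≤ (1 - y) * DD := by have := hx.2; linarith
    set w : ℝ := ((DD * DD / (DD - x.2) : ℕ) : ℝ) + 1 with hw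
    have hw0 : 0 ≤ w := by positivity
    have h5 : (DD : ℝ) * DD ≤ ((1 - y) * DD) * w := h4.trans (mul_le_mul_of_nonneg_right h1 hw0)
    have h6 : (DD : ℝ) ≤ (1 - y) * w := by
      have : (DD : ℝ) * DD ≤ ((1 - y) * w) * DD := by linarith
      exact le_of_mul_le_mul_right this hD
    rw [inv_mul_eq_div, div_le_iff₀ hy0]
    linarith

/-- an interval `[α, β]` with `al/DD ≤ α ≤ ah/DD`, `bl/DD ≤ β ≤ bh/DD` -/
structure Blk where
  al : ℕ
  ah : ℕ
  bl : ℕ
  bh : ℕ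
deriving DecidableEq

def BR (b : Blk) (i : ℝ × ℝ) : Prop := Bd (b.al, b.ah) i.1 ∧ Bd (b.bl, b.bh) i.2 ∧ 0 < i.1 ∧ i.1 ≤ i.2

def Rep (L : List Blk) (X : Set ℝ) : Prop := ∃ I, List.Forall₂ BR L I ∧ X = U I

def sc (f g : ℕ × ℕ) (b : Blk) : Blk :=
  ⟨mulLo f.1 b.al, mulHi f.2 b.ah, mulLo g.1 b.bl, mulHi g.2 b.bh⟩

lemma BR_sc {f g : ℕ × ℕ} {b : Blk} {i : ℝ × ℝ} {s t : ℝ} (hs : 0 < s) (hst : s ≤ t)
    (hf : Bd f s) (hg : Bd g t) (hb : BR b i) : BR (sc f g b) (s * i.1, t * i.2) := by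
  obtain ⟨h1, h2, h3, h4⟩ := hb
  refine ⟨⟨mulLo_spec hf.1 h1.1, mulHi_spec h3.le hf.2 h1.2⟩,
    ⟨mulLo_spec hg.1 h2.1, mulHi_spec (by linarith) hg.2 h2.2⟩, mul_pos hs h3, ?_⟩
  exact mul_le_mul hst h4 h3.le (by linarith)

def stepB (x : ℕ × ℕ) (A : ℕ) (L : List Blk) : List Blk :=
  (List.range A).flatMap (fun a => L.map (sc (faB x a) (faB x a))) ++
    L.map (sc (faB x A) (infB x))

def chkB (x : ℕ × ℕ) (A : ℕ) (L : List Blk) : Bool :=
  decide (x.2 < DD) &&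
  L.all (fun b => decide (mulHi (faB x (A + 1)).2 b.ah ≤ mulLo (faB x A).1 b.bl))

lemma forall₂_step {x : ℕ × ℕ} {y : ℝ} (hy0 : 0 < y) (hy1 : y < 1) (hx : Bd x y) (hx2 : x.2 < DD)
    (A : ℕ) {L : List Blk} {I : List (ℝ × ℝ)} (h : List.Forall₂ BR L I) :
    List.Forall₂ BR (stepB x A L) (stepI y A I) := by
  have hmap : ∀ (f g : ℕ × ℕ) (s t : ℝ), 0 < s → s ≤ t → Bd f s → Bd g t →
      List.Forall₂ BR (L.map (sc f g)) (I.map (fun i => (s * i.1, t * i.2))) := by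
    intro f g s t hs hst hf hg
    rw [List.forall₂_map_left_iff, List.forall₂_map_right_iff]
    exact h.imp (fun _ _ hb => BR_sc hs hst hf hg hb)
  unfold stepB stepI
  apply List.rel_append
  · generalize List.range A = R
    induction R with
    | nil => simp
    | cons a R ih =>
      rw [List.flatMap_cons, List.flatMap_cons]
      apply List.rel_append _ ih
      have := one_le_fa hy0.le a
      exact hmap _ _ _ _ (by linarith) le_rfl (Bd_fa hy0.le hx a) (Bd_fa hy0.le hx a)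
  · have := one_le_fa hy0.le A
    exact hmap _ _ _ _ (by linarith) (fa_le_inf hy0.le hy1 A) (Bd_fa hy0.le hx A) (Bd_inf hy1 hx hx2)

/-- do the two blocks surely overlap? -/
def ov (b c : Blk) : Bool := decide (b.ah ≤ c.bl) && decide (c.ah ≤ b.bl)

def hull (b c : Blk) : Blk := ⟨min b.al c.al, min b.ah c.ah, max b.bl c.bl, max b.bh c.bh⟩

def insB (b : Blk) : List Blk → List Blk
  | [] => [b]
  | c :: L => if ov b c then insB (hull b c) L else c :: insB b L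

def mergeB : List Blk → List Blk
  | [] => []
  | b :: L => insB b (mergeB L)

lemma hull_spec {b c : Blk} {i j : ℝ × ℝ} (hb : BR b i) (hc : BR c j) (h : ov b c = true) :
    BR (hull b c) (min i.1 j.1, max i.2 j.2) ∧
      Set.Icc (min i.1 j.1) (max i.2 j.2) = Set.Icc i.1 i.2 ∪ Set.Icc j.1 j.2 := by
  have hD := DD_pos
  simp only [ov, Bool.and_eq_true, decide_eq_true_eq] at h
  obtain ⟨h1, h2⟩ := h
  obtain ⟨⟨b1, b2⟩, ⟨b3, b4⟩, b5, b6⟩ := hb
  obtain ⟨⟨c1, c2⟩, ⟨c3, c4⟩, c5, c6⟩ := hc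
  simp only at b1 b2 b3 b4 c1 c2 c3 c4
  have e1 : i.1 ≤ j.2 := by
    have : i.1 * DD ≤ j.2 * DD := b2.trans ((by exact_mod_cast h1 : (b.ah : ℝ) ≤ c.bl).trans c3)
    exact le_of_mul_le_mul_right this hD
  have e2 : j.1 ≤ i.2 := by
    have : j.1 * DD ≤ i.2 * DD := c2.trans ((by exact_mod_cast h2 : (c.ah : ℝ) ≤ b.bl).trans b3)
    exact le_of_mul_le_mul_right this hD
  have hmin : min i.1 j.1 * DD = min (i.1 * DD) (j.1 * DD) := min_mul_of_nonneg _ _ hD.le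
  have hmax : max i.2 j.2 * DD = max (i.2 * DD) (j.2 * DD) := max_mul_of_nonneg _ _ hD.le
  refine ⟨⟨⟨?_, ?_⟩, ⟨?_, ?_⟩, ?_, ?_⟩, ?_⟩
  · simp only [hull]; rw [hmin]; push_cast; exact min_le_min b1 c1
  · simp only [hull]; rw [hmin]; push_cast; exact min_le_min b2 c2
  · simp only [hull]; rw [hmax]; push_cast; exact max_le_max b3 c3
  · simp only [hull]; rw [hmax]; push_cast; exact max_le_max b4 c4
  · exact lt_min b5 c5
  · exact (min_le_left _ _).trans (b6.trans (le_max_left _ _))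
  · ext y
    simp only [Set.mem_Icc, Set.mem_union, min_le_iff, le_max_iff]
    constructor
    · rintro ⟨h3 | h3, h4 | h4⟩
      · exact Or.inl ⟨h3, h4⟩
      · rcases le_total y i.2 with h5 | h5
        · exact Or.inl ⟨h3, h5⟩
        · exact Or.inr ⟨by linarith, h4⟩
      · rcases le_total y j.2 with h5 | h5
        · exact Or.inr ⟨h3, h5⟩
        · exact Or.inl ⟨by linarith, h4⟩
      · exact Or.inr ⟨h3, h4⟩
    · rintro (⟨h3, h4⟩ | ⟨h3, h4⟩)
      · exact ⟨Or.inl h3, Or.inl h4⟩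
      · exact ⟨Or.inr h3, Or.inr h4⟩

lemma insB_spec (L : List Blk) : ∀ (b : Blk) (i : ℝ × ℝ) (I : List (ℝ × ℝ)), BR b i →
    List.Forall₂ BR L I → ∃ J, List.Forall₂ BR (insB b L) J ∧ U J = U (i :: I) := by
  induction L with
  | nil =>
    intro b i I hb h
    cases h
    exact ⟨[i], List.Forall₂.cons hb List.Forall₂.nil, rfl⟩
  | cons c L ih =>
    intro b i I hb h
    cases h with
    | @cons _ j _ I' hc h' =>
      by_cases ho : ov b c = true
      · obtain ⟨h1, h2⟩ := hull_spec hb hc ho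
        obtain ⟨J, hJ1, hJ2⟩ := ih _ _ _ h1 h'
        refine ⟨J, by simpa [insB, ho] using hJ1, ?_⟩
        rw [hJ2, U_cons, U_cons, U_cons, ← Set.union_assoc]
        simp only
        rw [h2]
      · obtain ⟨J, hJ1, hJ2⟩ := ih _ _ _ hb h'
        refine ⟨j :: J, by simpa [insB, ho] using ⟨hc, hJ1⟩, ?_⟩
        rw [U_cons, hJ2, U_cons, U_cons, U_cons, ← Set.union_assoc, ← Set.union_assoc,
          Set.union_comm (Set.Icc j.1 j.2)]

lemma mergeB_spec (L : List Blk) : ∀ (I : List (ℝ × ℝ)), List.Forall₂ BR L I →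
    ∃ J, List.Forall₂ BR (mergeB L) J ∧ U J = U I := by
  induction L with
  | nil => intro I h; cases h; exact ⟨[], List.Forall₂.nil, rfl⟩
  | cons b L ih =>
    intro I h
    cases h with
    | @cons _ i _ I' hb h' =>
      obtain ⟨J, hJ1, hJ2⟩ := ih _ h'
      obtain ⟨K, hK1, hK2⟩ := insB_spec (mergeB L) b i J hb hJ1
      refine ⟨K, hK1, ?_⟩
      rw [hK2, U_cons, hJ2, U_cons]

lemma Rep_step {x : ℕ × ℕ} {y : ℝ} (hy0 : 0 < y) (hy1 : y < 1) (hx : Bd x y) (A : ℕ)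
    {L : List Blk} {Z : Set ℝ} (hR : Rep L (closure Z)) (hc : chkB x A L = true) :
    Rep (mergeB (stepB x A L)) (closure {w | ∃ a : ℕ, ∃ z ∈ Z, w = fa y a * z}) := by
  obtain ⟨I, hI, hU⟩ := hR
  simp only [chkB, Bool.and_eq_true, decide_eq_true_eq, List.all_eq_true] at hc
  obtain ⟨hx2, hc⟩ := hc
  obtain ⟨J, hJ1, hJ2⟩ := mergeB_spec _ _ (forall₂_step hy0 hy1 hx hx2 A hI)
  refine ⟨J, hJ1, ?_⟩
  rw [hJ2]
  apply closure_step hy0.le hy1 A I Z hU
  intro i hi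
  -- find the block of `i`
  have hex : ∃ b ∈ L, BR b i := by
    clear hU hJ1 hJ2 hc
    induction hI with
    | nil => simp at hi
    | @cons b j L I hb h ih =>
      rcases List.mem_cons.mp hi with rfl | hi
      · exact ⟨b, by simp, hb⟩
      · obtain ⟨c, hc, hc2⟩ := ih hi
        exact ⟨c, List.mem_cons_of_mem _ hc, hc2⟩
  obtain ⟨b, hb, hbi⟩ := hex
  have h1 := hc b hb
  obtain ⟨h2, h3, h4, h5⟩ := hbi
  refine ⟨h4, h5, ?_⟩
  have h6 := mulHi_spec h4.le (Bd_fa hy0.le hx (A + 1)).2 h2.2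
  have h7 := mulLo_spec (Bd_fa hy0.le hx A).1 h3.1
  have h8 : ((mulHi (faB x (A + 1)).2 b.ah : ℕ) : ℝ) ≤ (mulLo (faB x A).1 b.bl : ℕ) := by
    exact_mod_cast h1
  exact le_of_mul_le_mul_right (h6.trans (h8.trans h7)) DD_pos

/-- primality by trial division, for kernel evaluation -/
def isP (n : ℕ) : Bool := decide (2 ≤ n) && (List.range n).all (fun d => decide (d < 2) || decide (n % d ≠ 0))

lemma isP_iff (n : ℕ) : isP n = true ↔ n.Prime := by
  rw [Nat.prime_def_lt]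
  simp only [isP, Bool.and_eq_true, decide_eq_true_eq, List.all_eq_true, List.mem_range,
    Bool.or_eq_true]
  constructor
  · rintro ⟨h1, h2⟩
    refine ⟨h1, fun m hm hd => ?_⟩
    rcases h2 m hm with h3 | h3
    · interval_cases m
      · simp at hd; omega
      · rfl
    · exact absurd (Nat.mod_eq_zero_of_dvd hd) h3
  · rintro ⟨h1, h2⟩
    refine ⟨h1, fun d hd => ?_⟩
    by_cases hlt : d < 2
    · exact Or.inl hlt
    · right
      intro h3
      have := h2 d hd (Nat.dvd_of_mod_eq_zero h3)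
      omega

/-- bounds for `T(300 - k)` -/
def tbf (xb : ℕ → ℕ × ℕ) (tl : ℕ) : ℕ → ℕ × ℕ
  | 0 => (DD, DD + tl)
  | k + 1 => if isP (299 - k) then mulB (infB (xb (299 - k))) (tbf xb tl k) else tbf xb tl k

lemma tbf_spec {r : ℝ} (hr : 4 ≤ r) (xb : ℕ → ℕ × ℕ) (tl : ℕ)
    (htl : (1 - mj 300)⁻¹ * DD ≤ DD + tl)
    (hx : ∀ p, p < 300 → p.Prime → Bd (xb p) (fx r p) ∧ (xb p).2 < DD) :
    ∀ k, k ≤ 298 → Bd (tbf xb tl k) (TT r (300 - k)) := by
  intro k
  induction k with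
  | zero =>
    intro _
    have h1 := one_le_TT hr (show 2 ≤ 300 by norm_num)
    have h2 := TT_le hr (show 2 ≤ 300 by norm_num)
    have hD := DD_pos
    constructor
    · simp only [tbf]
      show (DD : ℝ) ≤ TT r 300 * DD
      nlinarith
    · simp only [tbf]
      show TT r 300 * DD ≤ ((DD + tl : ℕ) : ℝ)
      push_cast
      have : TT r 300 * DD ≤ (1 - mj 300)⁻¹ * DD := mul_le_mul_of_nonneg_right h2 hD.le
      linarith
  | succ k ih =>
    intro hk
    have ih' := ih (by omega)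
    have e : 300 - k = (300 - (k + 1)) + 1 := by omega
    have e2 : 299 - k = 300 - (k + 1) := by omega
    rw [TT_succ hr (show 2 ≤ 300 - (k + 1) by omega), ← e]
    have hT := one_le_TT hr (show 2 ≤ 300 - k by omega)
    by_cases hp : (299 - k).Prime
    · have hp' : isP (299 - k) = true := (isP_iff _).mpr hp
      simp only [tbf, hp', if_true]
      rw [e2] at hp ⊢
      rw [gp_prime hp]
      obtain ⟨h1, h2⟩ := hx _ (by omega) hp
      exact Bd_mul (by linarith) (Bd_inf (fx_lt_one (by linarith) hp.one_lt) h1 h2) ih'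
    · have hp' : ¬ isP (299 - k) = true := fun h => hp ((isP_iff _).mp h)
      simp only [tbf, hp', if_false]
      rw [e2] at hp
      rw [gp_not hp, one_mul]
      exact ih'

/-- the block list for `N = 23 - k` -/
def lv (xb : ℕ → ℕ × ℕ) (tl : ℕ) (Af : ℕ → ℕ) : ℕ → List Blk
  | 0 => [⟨DD, DD, (tbf xb tl 277).1, (tbf xb tl 277).2⟩]
  | k + 1 => if isP (22 - k) then mergeB (stepB (xb (22 - k)) (Af (22 - k)) (lv xb tl Af k))
      else lv xb tl Af k

def lvchk (xb : ℕ → ℕ × ℕ) (Af : ℕ → ℕ) (tl : ℕ) : Bool :=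
  (List.range 21).all (fun k => !isP (22 - k) || chkB (xb (22 - k)) (Af (22 - k)) (lv xb tl Af k))

lemma lv_spec {r : ℝ} (hr : 4 ≤ r) (xb : ℕ → ℕ × ℕ) (tl : ℕ) (Af : ℕ → ℕ)
    (htl : (1 - mj 300)⁻¹ * DD ≤ DD + tl)
    (hx : ∀ p, p < 300 → p.Prime → Bd (xb p) (fx r p) ∧ (xb p).2 < DD)
    (hc : ∀ n : ℕ, 23 ≤ n → n.Prime → 1 + fx r n ≤ TT r (n + 1))
    (hchk : ∀ k, k < 21 → isP (22 - k) = true → chkB (xb (22 - k)) (Af (22 - k)) (lv xb tl Af k) = true) :
    ∀ k, k ≤ 21 → Rep (lv xb tl Af k) (closure (SS r (23 - k))) := by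
  intro k
  induction k with
  | zero =>
    intro _
    refine ⟨[(1, TT r 23)], ?_, ?_⟩
    · simp only [lv]
      refine List.Forall₂.cons ⟨?_, ?_, ?_, ?_⟩ List.Forall₂.nil
      · simp [Bd]
      · exact tbf_spec hr xb tl htl hx 277 (by norm_num)
      · norm_num
      · exact one_le_TT hr (by norm_num)
    · rw [closure_SS hr (by norm_num : 2 ≤ 23) hc, U_cons]
      simp [U]
  | succ k ih =>
    intro hk
    have ih' := ih (by omega)
    have e : 23 - k = (23 - (k + 1)) + 1 := by omega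
    have e2 : 22 - k = 23 - (k + 1) := by omega
    by_cases hp : (22 - k).Prime
    · have hp' : isP (22 - k) = true := (isP_iff _).mpr hp
      simp only [lv, hp', if_true]
      have hx' := hx (22 - k) (by omega) hp
      have := Rep_step (fx_pos r hp.pos) (fx_lt_one (by linarith : 0 < r) hp.one_lt) hx'.1 (Af (22 - k)) ih'
        (hchk k (by omega) hp')
      rw [e, e2] at this
      rw [e2]
      rw [SS_prime r (e2 ▸ hp)]
      exact this
    · have hp' : ¬ isP (22 - k) = true := fun h => hp ((isP_iff _).mp h)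
      simp only [lv, hp', if_false]
      rw [SS_notprime r (e2 ▸ hp), ← e]
      exact ih'

/-- rational exponent bounds -/
lemma Bd_rat {a b N : ℕ} (hb : 0 < b) (hN : 0 < N) {lo hi : ℕ} (h1 : lo ^ b * N ^ a ≤ DD ^ b)
    (h2 : DD ^ b ≤ hi ^ b * N ^ a) : Bd (lo, hi) (fx ((a : ℝ) / b) N) := by
  have hN' : (0 : ℝ) < N := by exact_mod_cast hN
  have hy : fx ((a : ℝ) / b) N ^ b * (N : ℝ) ^ a = 1 := by
    unfold fx
    rw [← Real.rpow_natCast (_ ^ _) b, ← Real.rpow_mul hN'.le, ← Real.rpow_natCast (N : ℝ) a,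
      ← Real.rpow_add hN']
    have hb' : (b : ℝ) ≠ 0 := by positivity
    have : -((a : ℝ) / b) * b + a = 0 := by field_simp; ring
    rw [this, Real.rpow_zero]
  have hpos := fx_pos ((a : ℝ) / b) hN
  set y := fx ((a : ℝ) / b) N
  have hD := DD_pos
  have hNa : (0 : ℝ) < (N : ℝ) ^ a := by positivity
  have hyD : (y * DD) ^ b * (N : ℝ) ^ a = (DD : ℝ) ^ b := by
    rw [mul_pow]
    calc y ^ b * (DD : ℝ) ^ b * (N : ℝ) ^ a = (y ^ b * (N : ℝ) ^ a) * (DD : ℝ) ^ b := by ring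
      _ = _ := by rw [hy, one_mul]
  constructor
  · have h3 : ((lo : ℝ)) ^ b * (N : ℝ) ^ a ≤ (DD : ℝ) ^ b := by exact_mod_cast h1
    rw [← hyD] at h3
    have h4 := le_of_mul_le_mul_right h3 hNa
    exact (pow_le_pow_iff_left₀ (by positivity) (by positivity) hb.ne').mp h4
  · have h3 : (DD : ℝ) ^ b ≤ ((hi : ℝ)) ^ b * (N : ℝ) ^ a := by exact_mod_cast h2
    rw [← hyD] at h3
    have h4 := le_of_mul_le_mul_right h3 hNa
    exact (pow_le_pow_iff_left₀ (by positivity) (by positivity) hb.ne').mp h4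

end Pool.R342.Sig
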