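import Pool.Agent.R342.Sig.Basic

set_option autoImplicit false

namespace Pool.R342.Sig

open Finset Filter Topology

/-- Euler factor -/
noncomputable def gp (r : ℝ) (n : ℕ) : ℝ := open Classical in if n.Prime then (1 - fx r n)⁻¹ else 1

noncomputable def EE (r : ℝ) (N M : ℕ) : ℝ := ∏ n ∈ Ico N M, gp r n

noncomputable def TT (r : ℝ) (N : ℕ) : ℝ := ⨆ k : ℕ, EE r N (N + k)

lemma gp_prime {r : ℝ} {n : ℕ} (h : n.Prime) : gp r n = (1 - fx r n)⁻¹ := by simp [gp, h]
lemma gp_not {r : ℝ} {n : ℕ} (h : ¬ n.Prime) : gp r n = 1 := by simp [gp, h]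

lemma one_le_gp {r : ℝ} (hr : 0 < r) (n : ℕ) : 1 ≤ gp r n := by
  by_cases h : n.Prime
  · rw [gp_prime h]
    have h1 := fx_pos r h.pos
    have h2 := fx_lt_one hr h.one_lt
    have := fa_le_inf h1.le h2 0
    rwa [fa_zero] at this
  · rw [gp_not h]

lemma EE_self (r : ℝ) (N : ℕ) : EE r N N = 1 := by simp [EE]

lemma EE_succ (r : ℝ) (N k : ℕ) : EE r N (N + (k + 1)) = EE r N (N + k) * gp r (N + k) := by
  unfold EE; rw [← add_assoc, Finset.prod_Ico_succ_top (by omega)]

lemma EE_left (r : ℝ) (N k : ℕ) : EE r N (N + (k + 1)) = gp r N * EE r (N + 1) (N + 1 + k) := by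
  unfold EE
  rw [Finset.prod_eq_prod_Ico_succ_bot (by omega)]
  congr 2
  ring_nf

lemma one_le_EE {r : ℝ} (hr : 0 < r) (N M : ℕ) : 1 ≤ EE r N M := by
  unfold EE
  classical
  induction (Ico N M) using Finset.induction_on with
  | empty => simp
  | insert a s ha ih =>
    rw [Finset.prod_insert ha]
    have := one_le_gp hr a
    nlinarith

lemma EE_mono {r : ℝ} (hr : 0 < r) (N : ℕ) : Monotone (fun k => EE r N (N + k)) := by
  apply monotone_nat_of_le_succ
  intro k
  show EE r N (N + k) ≤ EE r N (N + (k+1))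
  rw [EE_succ]
  have h1 := one_le_gp hr (N + k)
  have h2 := one_le_EE hr N (N + k)
  nlinarith

lemma gp_le {r : ℝ} (hr : 4 ≤ r) {n : ℕ} (hn : 2 ≤ n) : gp r n ≤ 1 + 2 / (n : ℝ) ^ 4 := by
  have hn' : (2 : ℝ) ≤ n := by exact_mod_cast hn
  by_cases h : n.Prime
  · rw [gp_prime h]
    have h1 := fx_pos r h.pos
    have h2 : fx r n ≤ 1 / (n : ℝ) ^ 4 := by
      unfold fx
      rw [Real.rpow_neg (by linarith), one_div]
      apply inv_anti₀ (by positivity)
      calc (n : ℝ) ^ 4 = (n : ℝ) ^ (4 : ℝ) := by norm_cast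
        _ ≤ (n : ℝ) ^ r := Real.rpow_le_rpow_of_exponent_le (by linarith) hr
    have h3 : 1 / (n : ℝ) ^ 4 ≤ 1 / 2 := by
      apply one_div_le_one_div_of_le (by norm_num)
      nlinarith [sq_nonneg ((n : ℝ) ^ 2 - 4), mul_self_nonneg ((n : ℝ) - 2)]
    have h4 : (1 - fx r n)⁻¹ ≤ 1 + 2 * fx r n := by
      rw [inv_le_iff_one_le_mul₀ (by linarith)]
      nlinarith
    have h5 : 2 / (n : ℝ) ^ 4 = 2 * (1 / (n : ℝ) ^ 4) := by ring
    rw [h5]; linarith
  · rw [gp_not h]
    have : 0 ≤ 2 / (n : ℝ) ^ 4 := by positivity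
    linarith

/-- telescoping sum majorant -/
noncomputable def mj (n : ℕ) : ℝ := 2 / 3 * (1 / ((n : ℝ) - 1) ^ 3)

lemma mj_step {n : ℕ} (hn : 2 ≤ n) : 2 / (n : ℝ) ^ 4 ≤ mj n - mj (n + 1) := by
  have hn' : (2 : ℝ) ≤ n := by exact_mod_cast hn
  unfold mj
  push_cast
  obtain ⟨t, ht⟩ : ∃ t : ℝ, (n : ℝ) = t + 2 := ⟨n - 2, by ring⟩
  have ht0 : 0 ≤ t := by linarith
  rw [ht]
  have e1 : t + 2 - 1 = t + 1 := by ring
  have e2 : t + 2 + 1 - 1 = t + 2 := by ring
  rw [e1, e2]
  have h1 : (0 : ℝ) < t + 1 := by linarith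
  have h2 : (0 : ℝ) < t + 2 := by linarith
  rw [div_le_iff₀ (by positivity)]
  have : (2 / 3 * (1 / (t + 1) ^ 3) - 2 / 3 * (1 / (t + 2) ^ 3)) * (t + 2) ^ 4 =
      2 / 3 * ((t + 2) ^ 4 - (t + 2) * (t + 1) ^ 3) / (t + 1) ^ 3 := by
    field_simp
  rw [this, le_div_iff₀ (by positivity)]
  nlinarith [mul_nonneg ht0 ht0, mul_nonneg (mul_nonneg ht0 ht0) ht0]

lemma mj_nonneg {n : ℕ} (hn : 2 ≤ n) : 0 < mj n := by
  have hn' : (2 : ℝ) ≤ n := by exact_mod_cast hn
  unfold mj
  have : (0 : ℝ) < (n : ℝ) - 1 := by linarith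
  positivity

lemma mj_le {n : ℕ} (hn : 2 ≤ n) : mj n ≤ 2 / 3 := by
  have hn' : (2 : ℝ) ≤ n := by exact_mod_cast hn
  unfold mj
  have h1 : (1 : ℝ) ≤ (n : ℝ) - 1 := by linarith
  have h2 : 1 / ((n : ℝ) - 1) ^ 3 ≤ 1 := by
    rw [div_le_one (by positivity)]
    exact one_le_pow₀ h1
  linarith

lemma EE_le_aux {r : ℝ} (hr : 4 ≤ r) {N : ℕ} (hN : 2 ≤ N) (k : ℕ) :
    EE r N (N + k) * (1 - (mj N - mj (N + k))) ≤ 1 := by
  induction k with
  | zero => simp [EE_self]
  | succ k ih =>
    rw [EE_succ]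
    have h1 := gp_le hr (show 2 ≤ N + k by omega)
    have h2 := mj_step (show 2 ≤ N + k by omega)
    have h3 := one_le_EE (by linarith : 0 < r) N (N + k)
    have h4 := mj_le hN
    have h5 := mj_nonneg (show 2 ≤ N + k by omega)
    have h6 := mj_nonneg (show 2 ≤ N + (k + 1) by omega)
    have h7 : N + k + 1 = N + (k + 1) := by ring
    rw [h7] at h2
    set y : ℝ := 2 / ((N + k : ℕ) : ℝ) ^ 4 with hy
    have hy0 : 0 ≤ y := by positivity
    set a := mj N
    set b := mj (N + k)
    set c := mj (N + (k + 1))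
    have h8 : 0 < 1 - (a - c) := by linarith
    -- (1+y)(1-(a-c)) ≤ 1 - (a-b)
    have h9 : (1 + y) * (1 - (a - c)) ≤ 1 - (a - b) := by
      have h10 : c ≤ b - y := by linarith
      have h11 : c ≤ a := by
        have hca : mj (N + (k + 1)) ≤ mj N := by
          unfold mj
          have hn' : (2 : ℝ) ≤ N := by exact_mod_cast hN
          apply mul_le_mul_of_nonneg_left _ (by norm_num)
          apply one_div_le_one_div_of_le
          · have : (0 : ℝ) < (N : ℝ) - 1 := by linarith
            positivity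
          · apply pow_le_pow_left₀ (by linarith)
            push_cast
            have : (0 : ℝ) ≤ k := by positivity
            linarith
        exact hca
      have h12 : 0 ≤ y * (a - c) := mul_nonneg hy0 (by linarith)
      nlinarith
    calc EE r N (N + k) * gp r (N + k) * (1 - (a - c))
        ≤ EE r N (N + k) * (1 + y) * (1 - (a - c)) := by
          apply mul_le_mul_of_nonneg_right _ h8.le
          exact mul_le_mul_of_nonneg_left h1 (by linarith)
      _ = EE r N (N + k) * ((1 + y) * (1 - (a - c))) := by ring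
      _ ≤ EE r N (N + k) * (1 - (a - b)) := mul_le_mul_of_nonneg_left h9 (by linarith)
      _ ≤ 1 := ih

lemma EE_le {r : ℝ} (hr : 4 ≤ r) {N : ℕ} (hN : 2 ≤ N) (k : ℕ) :
    EE r N (N + k) ≤ (1 - mj N)⁻¹ := by
  have h1 := EE_le_aux hr hN k
  have h2 := mj_nonneg (show 2 ≤ N + k by omega)
  have h3 := mj_le hN
  have h4 := one_le_EE (by linarith : 0 < r) N (N + k)
  rw [le_inv_comm₀ (by linarith) (by linarith), ]
  rw [← one_div, le_div_iff₀ (by linarith)]
  nlinarith

lemma EE_bdd {r : ℝ} (hr : 4 ≤ r) {N : ℕ} (hN : 2 ≤ N) :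
    BddAbove (Set.range (fun k => EE r N (N + k))) := by
  refine ⟨(1 - mj N)⁻¹, ?_⟩
  rintro _ ⟨k, rfl⟩
  exact EE_le hr hN k

lemma TT_tendsto {r : ℝ} (hr : 4 ≤ r) {N : ℕ} (hN : 2 ≤ N) :
    Tendsto (fun k => EE r N (N + k)) atTop (𝓝 (TT r N)) :=
  tendsto_atTop_ciSup (EE_mono (by linarith) N) (EE_bdd hr hN)

lemma EE_le_TT {r : ℝ} (hr : 4 ≤ r) {N : ℕ} (hN : 2 ≤ N) (k : ℕ) : EE r N (N + k) ≤ TT r N :=
  le_ciSup (EE_bdd hr hN) k

lemma one_le_TT {r : ℝ} (hr : 4 ≤ r) {N : ℕ} (hN : 2 ≤ N) : 1 ≤ TT r N := by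
  have := EE_le_TT hr hN 0
  rwa [add_zero, EE_self] at this

lemma TT_le {r : ℝ} (hr : 4 ≤ r) {N : ℕ} (hN : 2 ≤ N) : TT r N ≤ (1 - mj N)⁻¹ :=
  ciSup_le (fun k => EE_le hr hN k)

lemma TT_succ {r : ℝ} (hr : 4 ≤ r) {N : ℕ} (hN : 2 ≤ N) : TT r N = gp r N * TT r (N + 1) := by
  have h1 := (TT_tendsto hr hN).comp (tendsto_add_atTop_nat 1)
  have h2 : Tendsto (fun k => gp r N * EE r (N + 1) (N + 1 + k)) atTop
      (𝓝 (gp r N * TT r (N + 1))) := (TT_tendsto hr (by omega)).const_mul _
  refine tendsto_nhds_unique h1 (h2.congr (fun k => ?_))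
  simp only [Function.comp]
  rw [EE_left]

lemma TT_tendsto_one {r : ℝ} (hr : 4 ≤ r) : Tendsto (fun N => TT r N) atTop (𝓝 1) := by
  have h1 : Tendsto (fun n : ℕ => (1 - mj n)⁻¹) atTop (𝓝 1) := by
    have h2 : Tendsto mj atTop (𝓝 0) := by
      unfold mj
      have h3 : Tendsto (fun n : ℕ => (n : ℝ) - 1) atTop atTop :=
        tendsto_atTop_add_const_right _ _ tendsto_natCast_atTop_atTop
      have h4 : Tendsto (fun n : ℕ => ((n : ℝ) - 1) ^ 3) atTop atTop :=
        (tendsto_pow_atTop (by norm_num)).comp h3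
      have h5 : Tendsto (fun n : ℕ => 1 / ((n : ℝ) - 1) ^ 3) atTop (𝓝 0) := by
        have h45 := h4.inv_tendsto_atTop
        refine h45.congr (fun n => ?_)
        simp [one_div]
      simpa using h5.const_mul (2/3 : ℝ)
    have h6 := (h2.const_sub 1).inv₀ (by norm_num)
    simpa using h6
  refine tendsto_of_tendsto_of_tendsto_of_le_of_le' tendsto_const_nhds h1 ?_ ?_
  · filter_upwards [eventually_ge_atTop 2] with N hN using one_le_TT hr hN
  · filter_upwards [eventually_ge_atTop 2] with N hN using TT_le hr hN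

/-- lower bound of a partial product by a sum over primes -/
lemma sum_le_EE {r : ℝ} (hr : 0 < r) (N M : ℕ) (F : Finset ℕ)
    (hF : ∀ q ∈ F, q.Prime ∧ N ≤ q ∧ q < M) : 1 + ∑ q ∈ F, fx r q ≤ EE r N M := by
  classical
  have h1 : ∀ s : Finset ℕ, (∀ q ∈ s, q.Prime) → 1 + ∑ q ∈ s, fx r q ≤ ∏ q ∈ s, gp r q := by
    intro s
    induction s using Finset.induction_on with
    | empty => simp
    | insert a s ha ih =>
      intro hs
      rw [Finset.sum_insert ha, Finset.prod_insert ha]
      have h2 := ih (fun q hq => hs q (Finset.mem_insert_of_mem hq))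
      have hap := hs a (Finset.mem_insert_self a s)
      have h3 : 1 + fx r a ≤ gp r a := by
        rw [gp_prime hap]
        have h4 := fx_pos r hap.pos
        have h5 := fx_lt_one hr hap.one_lt
        have h6 := fa_le_inf h4.le h5 1
        rw [fa_succ', fa_zero] at h6
        linarith
      have h7 := fx_pos r hap.pos
      have h8 : 0 ≤ ∑ q ∈ s, fx r q := Finset.sum_nonneg (fun q hq =>
        (fx_pos r (hs q (Finset.mem_insert_of_mem hq)).pos).le)
      have h9 : (1 + fx r a) * (1 + ∑ q ∈ s, fx r q) ≤ gp r a * ∏ q ∈ s, gp r q :=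
        mul_le_mul h3 h2 (by linarith) (by linarith)
      nlinarith [mul_nonneg h7.le h8]
  refine (h1 F (fun q hq => (hF q hq).1)).trans ?_
  unfold EE
  have hsub : F ⊆ Ico N M := fun q hq => by
    rw [Finset.mem_Ico]; exact ⟨(hF q hq).2.1, (hF q hq).2.2⟩
  rw [← Finset.prod_sdiff hsub]
  have h2 : 1 ≤ ∏ q ∈ (Ico N M) \ F, gp r q := by
    induction ((Ico N M) \ F) using Finset.induction_on with
    | empty => simp
    | insert a s ha ih =>
      rw [Finset.prod_insert ha]
      have := one_le_gp hr a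
      nlinarith
  have h3 : 0 ≤ ∏ q ∈ F, gp r q := Finset.prod_nonneg (fun q _ => by
    have := one_le_gp hr q; linarith)
  nlinarith

lemma sum_le_TT {r : ℝ} (hr : 4 ≤ r) {N : ℕ} (hN : 2 ≤ N) (F : Finset ℕ)
    (hF : ∀ q ∈ F, q.Prime ∧ N ≤ q) : 1 + ∑ q ∈ F, fx r q ≤ TT r N := by
  obtain ⟨M, hM⟩ : ∃ M : ℕ, ∀ q ∈ F, q < N + M := ⟨F.sup id + 1, fun q hq => by
    have := Finset.le_sup (f := id) hq
    simp only [id] at this; omega⟩
  exact (sum_le_EE (by linarith) N (N + M) F (fun q hq => ⟨(hF q hq).1, (hF q hq).2, hM q hq⟩)).trans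
    (EE_le_TT hr hN M)

/-- `σ(n) ≤ T(N)` when all prime factors of `n` are `≥ N` -/
lemma SS_le {r : ℝ} (hr : 4 ≤ r) {N : ℕ} (hN : 2 ≤ N) {y : ℝ} (hy : y ∈ SS r N) :
    1 ≤ y ∧ y ≤ TT r N := by
  -- by downward description: all prime factors `< N + k` gives membership, induct on `k`
  have key : ∀ k : ℕ, ∀ N : ℕ, 2 ≤ N → ∀ n : ℕ, 0 < n → (∀ p : ℕ, p.Prime → p ∣ n → N ≤ p) →
      (∀ p : ℕ, p.Prime → p ∣ n → p < N + k) → 1 ≤ sg r n ∧ sg r n ≤ EE r N (N + k) := by
    intro k
    induction k with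
    | zero =>
      intro N hN n hn h1 h2
      have : n = 1 := by
        by_contra hne
        obtain ⟨p, hp, hpd⟩ := Nat.exists_prime_and_dvd hne
        have := h1 p hp hpd
        have := h2 p hp hpd
        omega
      subst this
      simp [sg_one, EE_self]
    | succ k ih =>
      intro N hN n hn h1 h2
      rw [EE_left]
      by_cases hp : N.Prime
      · have hm : sg r n ∈ SS r N := ⟨n, hn, h1, rfl⟩
        set m := ordCompl[N] n with hmdef
        have hmpos : 0 < m := Nat.ordCompl_pos N hn.ne'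
        have hmd : m ∣ n := Nat.ordCompl_dvd n N
        have hsg : sg r n = fa (fx r N) (n.factorization N) * sg r m := by
          rw [← sg_prime_pow r hp, ← sg_mul r (Nat.Coprime.pow_left _ (Nat.coprime_ordCompl hp hn.ne')),
            Nat.ordProj_mul_ordCompl_eq_self]
        have h3 := ih (N + 1) (by omega) m hmpos (fun q hq hqd => by
            have h4 := h1 q hq (hqd.trans hmd)
            rcases Nat.lt_or_ge N q with h5 | h5
            · omega
            · have : q = N := by omega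
              subst this
              exact absurd hqd (Nat.not_dvd_ordCompl hp hn.ne'))
          (fun q hq hqd => by have := h2 q hq (hqd.trans hmd); omega)
        have hx := fx_pos r hp.pos
        have hx1 := fx_lt_one (by linarith : 0 < r) hp.one_lt
        have h4 := one_le_fa hx.le (n.factorization N)
        have h5 := fa_le_inf hx.le hx1 (n.factorization N)
        rw [hsg, gp_prime hp]
        refine ⟨by nlinarith [h3.1], ?_⟩
        exact mul_le_mul h5 h3.2 (by linarith [h3.1]) (by linarith)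
      · rw [gp_not hp, one_mul]
        exact ih (N + 1) (by omega) n hn (fun q hq hqd => by
            have h4 := h1 q hq hqd
            rcases Nat.lt_or_ge N q with h5 | h5
            · omega
            · have : q = N := by omega
              subst this; exact absurd hq hp)
          (fun q hq hqd => by have := h2 q hq hqd; omega)
  obtain ⟨n, hn, h1, rfl⟩ := hy
  have h2 := key n N hN n hn h1 (fun p hp hd => by have := Nat.le_of_dvd hn hd; omega)
  exact ⟨h2.1, h2.2.trans (EE_le_TT hr hN n)⟩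

/-- gap-filling: if `1 + x_n ≤ T(n+1)` for all primes `n ≥ N` then the closure of `SS r N` is the
interval `[1, T(N)]` -/
lemma closure_SS {r : ℝ} (hr : 4 ≤ r) {N : ℕ} (hN : 2 ≤ N)
    (hc : ∀ n : ℕ, N ≤ n → n.Prime → 1 + fx r n ≤ TT r (n + 1)) :
    closure (SS r N) = Set.Icc 1 (TT r N) := by
  apply Set.Subset.antisymm
  · apply closure_minimal _ isClosed_Icc
    intro y hy
    exact SS_le hr hN hy
  · -- greedy expansion
    have key : ∀ k : ℕ, ∀ M : ℕ, N ≤ M → ∀ y : ℝ, 1 ≤ y → y < TT r M →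
        ∃ n : ℕ, 0 < n ∧ (∀ p : ℕ, p.Prime → p ∣ n → M ≤ p ∧ p < M + k) ∧
          ∃ z : ℝ, 1 ≤ z ∧ z < TT r (M + k) ∧ y = sg r n * z := by
      intro k
      induction k with
      | zero =>
        intro M hM y hy1 hy2
        refine ⟨1, one_pos, fun p hp hd => absurd (Nat.dvd_one.mp hd) hp.one_lt.ne', y, hy1, by simpa using hy2, ?_⟩
        rw [sg_one]; ring
      | succ k ih =>
        intro M hM y hy1 hy2
        rw [TT_succ hr (by omega)] at hy2
        by_cases hp : M.Prime
        · rw [gp_prime hp] at hy2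
          have hx := fx_pos r hp.pos
          have hx1 := fx_lt_one (by linarith : 0 < r) hp.one_lt
          have hT := one_le_TT hr (show 2 ≤ M + 1 by omega)
          have hcM := hc M hM hp
          have hex : ∃ a : ℕ, y < fa (fx r M) a * TT r (M + 1) := by
            have ht : Tendsto (fun a : ℕ => fa (fx r M) a * TT r (M + 1)) atTop
                (𝓝 ((1 - fx r M)⁻¹ * TT r (M + 1))) := (fa_tendsto hx.le hx1).mul_const _
            exact (ht.eventually (lt_mem_nhds hy2)).exists
          classical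
          obtain ⟨ha1, ha2⟩ := And.intro (Nat.find_spec hex) (fun m hm => Nat.find_min hex (m := m) hm)
          set a := Nat.find hex with hadef
          have hf := one_le_fa hx.le a
          have hf0 : 0 < fa (fx r M) a := by linarith
          have hy3 : fa (fx r M) a ≤ y := by
            rcases Nat.eq_zero_or_pos a with h0 | h0
            · rw [h0, fa_zero]; exact hy1
            · have h3 := ha2 (a - 1) (by omega)
              push Not at h3
              have h4 := fa_ratio hx.le hx1 (show 0 ≤ a - 1 by omega)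
              have h5 : a - 1 + 1 = a := by omega
              rw [h5, fa_zero, mul_one, zero_add, fa_succ' _ 0, fa_zero, mul_one] at h4
              have h6 := one_le_fa hx.le (a - 1)
              nlinarith
          obtain ⟨n, hn, hn1, z, hz1, hz2, hz3⟩ := ih (M + 1) (by omega) (y / fa (fx r M) a)
            (by rw [le_div_iff₀ hf0]; linarith) (by rw [div_lt_iff₀ hf0]; linarith)
          refine ⟨M ^ a * n, Nat.mul_pos (pow_pos hp.pos a) hn, ?_, z, hz1, ?_, ?_⟩
          · intro q hq hqd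
            rcases (hq.dvd_mul).mp hqd with h2 | h2
            · have h3 := hq.dvd_of_dvd_pow h2
              have h4 := (Nat.prime_dvd_prime_iff_eq hq hp).mp h3
              omega
            · have := hn1 q hq h2; omega
          · have : M + 1 + k = M + (k + 1) := by ring
            rwa [this] at hz2
          · have hcop : Nat.Coprime (M ^ a) n := by
              apply Nat.Coprime.pow_left
              rw [hp.coprime_iff_not_dvd]
              intro h2
              have := hn1 M hp h2; omega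
            rw [sg_mul r hcop, sg_prime_pow r hp, mul_assoc, ← hz3]
            field_simp
        · rw [gp_not hp, one_mul] at hy2
          obtain ⟨n, hn, hn1, z, hz1, hz2, hz3⟩ := ih (M + 1) (by omega) y hy1 hy2
          refine ⟨n, hn, fun q hq hqd => ?_, z, hz1, ?_, hz3⟩
          · have := hn1 q hq hqd; omega
          · have : M + 1 + k = M + (k + 1) := by ring
            rwa [this] at hz2
    have hIco : Set.Ico 1 (TT r N) ⊆ closure (SS r N) := by
      rintro y ⟨hy1, hy2⟩
      have h1 : ∀ k : ℕ, ∃ n : ℕ, 0 < n ∧ (∀ p : ℕ, p.Prime → p ∣ n → N ≤ p ∧ p < N + k) ∧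
          ∃ z : ℝ, 1 ≤ z ∧ z < TT r (N + k) ∧ y = sg r n * z := fun k => key k N le_rfl y hy1 hy2
      choose n hn hn1 z hz1 hz2 hz3 using h1
      have hzt : Tendsto z atTop (𝓝 1) := by
        have h2 : Tendsto (fun k => TT r (N + k)) atTop (𝓝 1) := by
          have := (TT_tendsto_one hr).comp (tendsto_add_atTop_nat N)
          refine this.congr (fun k => by simp [Function.comp, add_comm])
        exact tendsto_of_tendsto_of_tendsto_of_le_of_le tendsto_const_nhds h2 hz1 (fun k => (hz2 k).le)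
      have hst : Tendsto (fun k => sg r (n k)) atTop (𝓝 y) := by
        have h3 : Tendsto (fun k => y / z k) atTop (𝓝 (y / 1)) := (tendsto_const_nhds (x := y)).div hzt (by norm_num)
        rw [div_one] at h3
        refine h3.congr (fun k => ?_)
        rw [hz3 k]
        have := hz1 k
        field_simp
      refine mem_closure_of_tendsto hst (Eventually.of_forall (fun k => ?_))
      exact ⟨n k, hn k, fun p hp hd => (hn1 k p hp hd).1, rfl⟩
    rcases eq_or_lt_of_le (one_le_TT hr hN) with h | h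
    · rw [← h]
      intro y hy
      have : y = 1 := le_antisymm hy.2 hy.1
      subst this
      exact subset_closure ⟨1, one_pos, fun p hp hd => absurd (Nat.dvd_one.mp hd) hp.one_lt.ne', (sg_one r).symm⟩
    · rw [← closure_Ico h.ne]
      exact closure_minimal hIco isClosed_closure

end Pool.R342.Sig
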